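import Pool.Agent.H14R2.RC.Asy

/-!
Choice of the parameters.
-/

set_option autoImplicit false

namespace Pool.Agent.L0h8.ND
open Filter Topology RC14

/-- a prime of the right size which does not divide `N` -/
lemma exists_prime (S N n : ℕ) (hS : 1 ≤ S) (hN : N ≤ n) (hN0 : 0 < N) (h : n < (S + 1) ^ 2) :
    ∃ s : ℕ, s.Prime ∧ S < s ∧ s ≤ 4 * S ∧ ¬ s ∣ N := by
  obtain ⟨p, hp, h1, h2⟩ := Nat.exists_prime_lt_and_le_two_mul S (by omega)
  obtain ⟨q, hq, h3, h4⟩ := Nat.exists_prime_lt_and_le_two_mul (2 * S) (by omega)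
  by_cases hpN : p ∣ N
  · refine ⟨q, hq, by omega, by omega, fun hqN => ?_⟩
    have hne : p ≠ q := by omega
    have hcop : Nat.Coprime p q := (Nat.coprime_primes hp hq).2 hne
    have h5 := Nat.le_of_dvd hN0 (hcop.mul_dvd_of_dvd_of_dvd hpN hqN)
    have h6 : (S + 1) ^ 2 ≤ p * q := by
      rw [pow_two]
      exact Nat.mul_le_mul (by omega) (by omega)
    omega
  · exact ⟨p, hp, h1, by omega, hpN⟩

lemma one_sub_pow_le (a : ℝ) (ha1 : a ≤ 1) (t : ℕ) : (1 - a) ^ t ≤ Real.exp (-(a * t)) := by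
  have h1 : 1 - a ≤ Real.exp (-a) := by
    have := Real.add_one_le_exp (-a)
    linarith
  calc (1 - a) ^ t ≤ Real.exp (-a) ^ t := pow_le_pow_left₀ (by linarith) h1 t
    _ = Real.exp (-(a * t)) := by
      rw [← Real.exp_nat_mul]
      congr 1; ring

/-- the numerical conditions -/
theorem num (d ε₁ ε₂ ε₀ : ℝ) (hd : 0 < d) (hd1 : d ≤ 1 / 8) (h1 : 0 < ε₁) (h1' : ε₁ ≤ 2)
    (h2 : 0 < ε₂) (h2' : ε₂ ≤ 2) (h0 : 0 < ε₀) :
    ∀ᶠ n : ℕ in atTop, ∃ s m L t : ℕ, s.Prime ∧ 4 ≤ s ∧ ¬ s ∣ m ∧ 2 ≤ m ∧ m ≤ n ∧ m ≠ s ∧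
      m + s ≤ n ∧ n ≤ m + s + 1 ∧ Even (m + s) ∧ 6 ≤ n ∧ s ≤ ⌊(n : ℝ) ^ (1 - d)⌋₊ ∧
      (1 - ε₁ / 2) ^ t * ((n : ℝ) ^ s) ^ 2 < 1 ∧
      (Real.exp (-(n : ℝ) ^ (1 - 4 * d)) + (1 - ε₂ / 2) ^ (2 * L)) * (n : ℝ) ^ 2 ≤ ε₀ ∧
      (((4 * (n / (s / 4)) + 8) * (n * (L + 1) + 2 * t) : ℕ) : ℝ) ≤ (n : ℝ) ^ (1 + 8 * d) := by
  filter_upwards [ev_const d 200 hd, ev_le (1 - 2 * d) (1 - d) 4 (by linarith),
    ev_le (1 - 2 * d) 1 10 (by linarith), ev_log (1 - 2 * d) 1 (32 / ε₁) (by linarith),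
    ev_log 0 (1 - 4 * d) 4 (by linarith), ev_log 0 d (4 / ε₂) hd,
    ev_const (1 - 2 * d) 16 (by linarith), eventually_ge_atTop 100,
    ev_const 1 (2 / ε₀ + 1) (by norm_num)]
    with n ha hb hc he hf hg hh hn hi
  rw [Real.rpow_one] at hc he hi
  rw [Real.rpow_zero, mul_one] at hf hg
  have hnr : (100 : ℝ) ≤ n := by exact_mod_cast hn
  have hn0 : (0 : ℝ) < n := by linarith
  have hn1 : (1 : ℝ) ≤ n := by linarith
  set A : ℝ := (n : ℝ) ^ d with hA
  set B : ℝ := (n : ℝ) ^ (1 - 2 * d) with hB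
  have hA0 : 0 < A := by positivity
  have hB0 : 0 < B := by positivity
  have hBA : B * A ^ 2 = n := by
    rw [hB, hA, ← Real.rpow_natCast, ← Real.rpow_mul hn0.le, ← Real.rpow_add hn0]
    push_cast
    rw [show 1 - 2 * d + d * 2 = 1 by ring, Real.rpow_one]
  set S : ℕ := ⌊B⌋₊ with hS
  have hS1 : (S : ℝ) ≤ B := Nat.floor_le hB0.le
  have hS2 : B < S + 1 := Nat.lt_floor_add_one B
  have hS3 : 15 ≤ S := by
    have : (15 : ℝ) < S := by linarith
    exact_mod_cast this.le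
  -- the even number
  obtain ⟨N, hNn, hNn', hNev⟩ : ∃ N : ℕ, N ≤ n ∧ n ≤ N + 1 ∧ Even N := by
    rcases Nat.even_or_odd n with h | h
    · exact ⟨n, le_rfl, by omega, h⟩
    · exact ⟨n - 1, by omega, by omega, by
        obtain ⟨j, hj⟩ := h; exact ⟨j, by omega⟩⟩
  have hsq : n < (S + 1) ^ 2 := by
    have h3 : (n : ℝ) < ((S : ℝ) + 1) ^ 2 := by
      have h4 : A ^ 2 ≤ B := by
        rw [hA, hB, ← Real.rpow_natCast, ← Real.rpow_mul hn0.le]
        apply Real.rpow_le_rpow_of_exponent_le hn1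
        push_cast; linarith
      calc (n : ℝ) = B * A ^ 2 := hBA.symm
        _ ≤ B * B := by gcongr
        _ = B ^ 2 := by ring
        _ < ((S : ℝ) + 1) ^ 2 := by gcongr
    exact_mod_cast h3
  obtain ⟨s, hsp, hs1, hs2, hs3⟩ := exists_prime S N n (by omega) hNn (by omega) hsq
  have h4S : 8 * S + 10 ≤ n := by
    have : (8 * (S : ℝ) + 10) ≤ n := by
      have : 16 ≤ B := hh
      nlinarith
    exact_mod_cast this
  have hs1r : (S : ℝ) + 1 ≤ s := by exact_mod_cast hs1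
  have hs2r : (s : ℝ) ≤ 4 * S := by exact_mod_cast hs2
  set L : ℕ := ⌈A⌉₊ with hL
  have hL1 : A ≤ L := Nat.le_ceil _
  have hL2 : (L : ℝ) < A + 1 := Nat.ceil_lt_add_one hA0.le
  refine ⟨s, N - s, L, n, hsp, by omega, ?_, by omega, by omega, by omega, by omega, by omega, ?_,
    by omega, ?_, ?_, ?_, ?_⟩
  · intro hdvd
    apply hs3
    have := (Nat.dvd_sub_iff_left (show s ≤ N by omega) dvd_rfl).1 hdvd
    exact this
  · rw [Nat.sub_add_cancel (by omega)]; exact hNev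
  · apply Nat.le_floor
    linarith
  · have e1 : ((n : ℝ) ^ s) ^ 2 = Real.exp (2 * s * Real.log n) := by
      rw [← pow_mul, ← Real.exp_log hn0, ← Real.exp_nat_mul, Real.exp_log hn0]
      push_cast
      congr 1; ring
    have h3 := one_sub_pow_le (ε₁ / 2) (by linarith) n
    rw [e1]
    have h4 : 2 * (s : ℝ) * Real.log n < ε₁ / 2 * n := by
      have h5 : 32 / ε₁ * B * Real.log n ≤ n := he
      have hlog : 0 < Real.log n := Real.log_pos (by linarith)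
      have h6 : (s : ℝ) ≤ 4 * B := by linarith
      have h7 : 32 / ε₁ * B * Real.log n = (32 * B * Real.log n) / ε₁ := by ring
      rw [h7, div_le_iff₀ h1] at h5
      have h8 : 2 * (s : ℝ) * Real.log n ≤ 8 * B * Real.log n := by
        have : (s : ℝ) * Real.log n ≤ 4 * B * Real.log n := by gcongr
        linarith
      have h9 : 0 < B * Real.log n := by positivity
      linarith
    calc (1 - ε₁ / 2) ^ n * Real.exp (2 * s * Real.log n)
        ≤ Real.exp (-(ε₁ / 2 * n)) * Real.exp (2 * s * Real.log n) := by gcongr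
      _ = Real.exp (-(ε₁ / 2 * n) + 2 * s * Real.log n) := by rw [← Real.exp_add]
      _ < 1 := by
        rw [Real.exp_lt_one_iff]; linarith
  · have hlogn : Real.exp (-(4 * Real.log n)) * (n : ℝ) ^ 2 ≤ 1 / n := by
      have e1 : (n : ℝ) ^ 2 = Real.exp (2 * Real.log n) := by
        rw [show (2 : ℝ) * Real.log n = ((2 : ℕ) : ℝ) * Real.log n by norm_num,
          Real.exp_nat_mul, Real.exp_log hn0]
      have e2 : 1 / (n : ℝ) = Real.exp (-Real.log n) := by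
        rw [Real.exp_neg, Real.exp_log hn0, one_div]
      rw [e1, e2, ← Real.exp_add]
      apply Real.exp_le_exp.2
      have : 0 ≤ Real.log n := Real.log_natCast_nonneg n
      linarith
    have h3 : Real.exp (-(n : ℝ) ^ (1 - 4 * d)) ≤ Real.exp (-(4 * Real.log n)) := by
      apply Real.exp_le_exp.2; linarith
    have h4 : (1 - ε₂ / 2) ^ (2 * L) ≤ Real.exp (-(4 * Real.log n)) := by
      refine (one_sub_pow_le (ε₂ / 2) (by linarith) (2 * L)).trans ?_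
      apply Real.exp_le_exp.2
      push_cast
      have h5 : 4 / ε₂ * Real.log n ≤ A := hg
      rw [div_mul_eq_mul_div, div_le_iff₀ h2] at h5
      nlinarith
    calc (Real.exp (-(n : ℝ) ^ (1 - 4 * d)) + (1 - ε₂ / 2) ^ (2 * L)) * (n : ℝ) ^ 2
        ≤ (Real.exp (-(4 * Real.log n)) + Real.exp (-(4 * Real.log n))) * (n : ℝ) ^ 2 := by
          gcongr
      _ = 2 * (Real.exp (-(4 * Real.log n)) * (n : ℝ) ^ 2) := by ring
      _ ≤ 2 * (1 / n) := by gcongr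
      _ ≤ ε₀ := by
        rw [mul_one_div, div_le_iff₀ hn0]
        have : 2 / ε₀ ≤ n := by linarith
        rw [div_le_iff₀ h0] at this
        linarith
  · -- the length
    have hs4 : (s : ℝ) / 8 ≤ ((s / 4 : ℕ) : ℝ) := by
      have h5 : s ≤ 8 * (s / 4) := by omega
      have : (s : ℝ) ≤ 8 * ((s / 4 : ℕ) : ℝ) := by exact_mod_cast h5
      linarith
    have hs4' : B / 8 ≤ ((s / 4 : ℕ) : ℝ) := by linarith
    have hdiv : ((n / (s / 4) : ℕ) : ℝ) ≤ 8 * A ^ 2 := by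
      have h5 : ((n / (s / 4) : ℕ) : ℝ) ≤ (n : ℝ) / ((s / 4 : ℕ) : ℝ) := Nat.cast_div_le
      refine h5.trans ?_
      rw [div_le_iff₀ (by linarith [show 0 < B / 8 by positivity])]
      calc (n : ℝ) = 8 * A ^ 2 * (B / 8) := by rw [← hBA]; ring
        _ ≤ _ := by gcongr
    have hA200 : (200 : ℝ) ≤ A := ha
    push_cast
    have h6 : (4 * ((n / (s / 4) : ℕ) : ℝ) + 8) ≤ 33 * A ^ 2 := by nlinarith
    have h7 : ((n : ℝ) * ((L : ℝ) + 1) + 2 * n) ≤ n * (2 * A) := by nlinarith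
    have h8 : (n : ℝ) ^ (1 + 8 * d) = n * A ^ 8 := by
      rw [hA, ← Real.rpow_natCast, ← Real.rpow_mul hn0.le, Real.rpow_add hn0, Real.rpow_one]
      push_cast
      rw [mul_comm d 8]
    rw [h8]
    calc (4 * ((n / (s / 4) : ℕ) : ℝ) + 8) * ((n : ℝ) * ((L : ℝ) + 1) + 2 * n)
        ≤ (33 * A ^ 2) * (n * (2 * A)) := by gcongr
      _ = n * (66 * A ^ 3) := by ring
      _ ≤ n * A ^ 8 := by
        have h9 : 66 * A ^ 3 ≤ A ^ 8 := by
          have h10 : (66 : ℝ) ≤ A ^ 5 := by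
            calc (66 : ℝ) ≤ 200 ^ 5 := by norm_num
              _ ≤ A ^ 5 := by gcongr
          calc 66 * A ^ 3 ≤ A ^ 5 * A ^ 3 := by gcongr
            _ = A ^ 8 := by ring
        gcongr

end Pool.Agent.L0h8.ND
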