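import Pool.Agent.L0h8.ND.Rep
import Pool.Agent.R236.ExcD
import Pool.Agent.H995R2.RC.AMP1

/-!
Class functions on `A_n` decay under the lazy walk if there are few exceptional eigenvalues in the
irreducible representations.
-/

set_option autoImplicit false
set_option linter.unusedSectionVars false

namespace Pool.Agent.L0h8.ND
open RC14 Finset
open scoped InnerProductSpace

noncomputable section

/-- right multiplication by the generators -/
def rmul {n k : ℕ} (y : Fin k → Alt n) : Fin k → Equiv.Perm (Alt n) := fun i => Equiv.mulRight (y i)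

lemma rmul_list {n k : ℕ} {y : Fin k → Alt n} (w : List (Equiv.Perm (Alt n)))
    (hw : ∀ p ∈ w, ∃ i, p = rmul y i ∨ p = (rmul y i)⁻¹) :
    ∃ u ∈ ball y w.length, ∀ h, w.prod h = h * u := by
  induction w with
  | nil => exact ⟨1, one_mem_ball, fun h => by simp⟩
  | cons a l ih =>
    obtain ⟨u, hu, hul⟩ := ih fun p hp => hw p (by simp [hp])
    obtain ⟨i, hi | hi⟩ := hw a (by simp)
    · refine ⟨u * y i, mul_mem_ball hu (gen_mem_ball i), fun h => ?_⟩
      rw [List.prod_cons, Equiv.Perm.mul_apply, hul, hi, ← mul_assoc]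
      rfl
    · refine ⟨u * (y i)⁻¹, mul_mem_ball hu (geninv_mem_ball i), fun h => ?_⟩
      rw [List.prod_cons, Equiv.Perm.mul_apply, hul, hi, ← mul_assoc]
      rfl

lemma ball_rmul {n k : ℕ} {y : Fin k → Alt n} {t : ℕ} {g : Equiv.Perm (Alt n)}
    (hg : g ∈ ball (rmul y) t) : ∃ u ∈ ball y t, ∀ h, g h = h * u := by
  obtain ⟨w, h1, h2, rfl⟩ := hg
  obtain ⟨u, hu, hul⟩ := rmul_list w h2
  exact ⟨u, ball_mono h1 hu, hul⟩

/-- the action on tuples -/
def tmul (s : ℕ) {n k : ℕ} (y : Fin k → Alt n) : Fin k → Equiv.Perm (Tup s n) :=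
  fun i => mvE (y i : Equiv.Perm (Fin n))

lemma tmul_list {s n k : ℕ} {y : Fin k → Alt n} (w : List (Equiv.Perm (Tup s n)))
    (hw : ∀ p ∈ w, ∃ i, p = tmul s y i ∨ p = (tmul s y i)⁻¹) :
    ∃ u ∈ ball y w.length, ∀ a, w.prod a = mv (u : Equiv.Perm (Fin n)) a := by
  induction w with
  | nil => exact ⟨1, one_mem_ball, fun h => by simp⟩
  | cons a l ih =>
    obtain ⟨u, hu, hul⟩ := ih fun p hp => hw p (by simp [hp])
    obtain ⟨i, hi | hi⟩ := hw a (by simp)
    · refine ⟨y i * u, ?_, fun h => ?_⟩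
      · have := mul_mem_ball (gen_mem_ball (x := y) i) hu
        exact ball_mono (by simp; omega) this
      · rw [List.prod_cons, Equiv.Perm.mul_apply, hul, hi, Subgroup.coe_mul, mv_mul]
        rfl
    · refine ⟨(y i)⁻¹ * u, ?_, fun h => ?_⟩
      · have := mul_mem_ball (geninv_mem_ball (x := y) i) hu
        exact ball_mono (by simp; omega) this
      · rw [List.prod_cons, Equiv.Perm.mul_apply, hul, hi, Subgroup.coe_mul, mv_mul]
        rfl

lemma ball_tmul {s n k : ℕ} {y : Fin k → Alt n} {t : ℕ} {g : Equiv.Perm (Tup s n)}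
    (hg : g ∈ ball (tmul s y) t) : ∃ u ∈ ball y t, ∀ a, g a = mv (u : Equiv.Perm (Fin n)) a := by
  obtain ⟨w, h1, h2, rfl⟩ := hg
  obtain ⟨u, hu, hul⟩ := tmul_list w h2
  exact ⟨u, ball_mono h1 hu, hul⟩

/-- the functions of sum zero -/
def M0 (n : ℕ) : Submodule ℂ (FA n) where
  carrier := {f | ∑ g, f g = 0}
  zero_mem' := by simp
  add_mem' := by
    intro a b ha hb
    change ∑ g, (a + b) g = 0
    have ha' : ∑ g, a g = 0 := ha
    have hb' : ∑ g, b g = 0 := hb
    simp only [PiLp.add_apply]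
    rw [Finset.sum_add_distrib, ha', hb', add_zero]
  smul_mem' := by
    intro c a ha
    change ∑ g, (c • a) g = 0
    have ha' : ∑ g, a g = 0 := ha
    simp only [PiLp.smul_apply, smul_eq_mul]
    rw [← Finset.mul_sum, ha', mul_zero]

lemma M0_inv (n : ℕ) : Inv (RR n) (M0 n) := by
  intro g f hf
  change ∑ h, (RR n g f) h = 0
  have hf' : ∑ h, f h = 0 := hf
  rw [← hf', ← Equiv.sum_comp (Equiv.mulRight g) (fun h => f h)]
  exact Finset.sum_congr rfl fun h _ => RR_apply g f h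

/-- the real function `f` as a vector -/
def toFA {n : ℕ} (f : Alt n → ℝ) : FA n := WithLp.toLp 2 fun g => (f g : ℂ)

lemma toFA_apply {n : ℕ} (f : Alt n → ℝ) (g : Alt n) : toFA f g = (f g : ℂ) := rfl

lemma norm_toFA {n : ℕ} (f : Alt n → ℝ) : ‖toFA f‖ ^ 2 = ∑ g, f g ^ 2 := by
  rw [EuclideanSpace.norm_sq_eq]
  refine Finset.sum_congr rfl fun g _ => ?_
  rw [toFA_apply, Complex.norm_real, Real.norm_eq_abs, sq_abs]

lemma TL_toFA {n k : ℕ} (y : Fin k → Alt n) (f : Alt n → ℝ) :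
    TL (RR n) y (toFA f) = toFA (lz (rmul y) f) := by
  ext g
  rw [WORDS.TL_apply, toFA_apply, PiLp.smul_apply, PiLp.add_apply, PiLp.smul_apply,
    WithLp.ofLp_sum, Finset.sum_apply]
  simp only [PiLp.add_apply, RR_apply, toFA_apply, smul_eq_mul]
  simp only [lz, wk, rmul]
  push_cast
  have e : ∀ i, ((Equiv.mulRight (y i))⁻¹ : Equiv.Perm (Alt n)) g = g * (y i)⁻¹ := fun i => rfl
  simp only [e, Equiv.coe_mulRight]
  ring

lemma TL_pow_toFA {n k : ℕ} (y : Fin k → Alt n) (L : ℕ) (f : Alt n → ℝ) :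
    (TL (RR n) y ^ L) (toFA f) = toFA ((lz (rmul y))^[L] f) := by
  induction L with
  | zero => simp
  | succ L ih =>
    rw [pow_succ', Module.End.mul_apply, ih, TL_toFA, Function.iterate_succ_apply']

/-- left translation -/
def LT (n : ℕ) (h : Alt n) : FA n ≃ₗᵢ[ℂ] FA n :=
  LinearIsometryEquiv.piLpCongrLeft 2 ℂ ℂ (Equiv.mulLeft h)

lemma LT_apply {n : ℕ} (h : Alt n) (f : FA n) (g : Alt n) : LT n h f g = f (h⁻¹ * g) := by
  simp [LT, LinearIsometryEquiv.piLpCongrLeft_apply, Equiv.piCongrLeft']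

lemma LT_comm {n k : ℕ} (y : Fin k → Alt n) (h : Alt n) (f : FA n) :
    TL (RR n) y (LT n h f) = LT n h (TL (RR n) y f) := by
  ext g
  rw [LT_apply, WORDS.TL_apply, WORDS.TL_apply, PiLp.smul_apply, PiLp.add_apply, PiLp.smul_apply,
    WithLp.ofLp_sum, Finset.sum_apply, PiLp.smul_apply, PiLp.add_apply, PiLp.smul_apply,
    WithLp.ofLp_sum, Finset.sum_apply]
  simp only [PiLp.add_apply, RR_apply, LT_apply, mul_assoc]

lemma LT_comm_pow {n k : ℕ} (y : Fin k → Alt n) (h : Alt n) (L : ℕ) (f : FA n) :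
    (TL (RR n) y ^ L) (LT n h f) = LT n h ((TL (RR n) y ^ L) f) := by
  induction L with
  | zero => simp
  | succ L ih =>
    rw [pow_succ', Module.End.mul_apply, ih, LT_comm, Module.End.mul_apply]

/-- the two translations of a class function -/
lemma class_RR {n : ℕ} (f : Alt n → ℝ) (hf : ∀ g h, f (h * g * h⁻¹) = f g) (h : Alt n) :
    RR n h⁻¹ (toFA f) = LT n h (toFA f) := by
  ext g
  rw [RR_apply, LT_apply, toFA_apply, toFA_apply]
  have := hf (g * h⁻¹) h⁻¹
  rw [inv_inv, mul_assoc, mul_assoc, inv_mul_cancel, mul_one] at this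
  rw [this]

/-- the averaged walk in a representation without invariant vectors -/
theorem avg_le' {n k : ℕ} (hk : 1 ≤ k) (ε η : ℝ) (hε : ε ≤ 2)
    (y : Fin k → Alt n) (h : Pool.Agent.R236.Exc.FewExceptional n ε η y)
    {V : Type} [NormedAddCommGroup V] [InnerProductSpace ℂ V] [FiniteDimensional ℂ V]
    (ρ : Alt n →* (V ≃ₗᵢ[ℂ] V)) (hni : ∀ v, (∀ g, ρ g v = v) → v = 0) (L : ℕ) (v : V) :
    ∑ z : Alt n, (⟪cj ρ (TL ρ y ^ L) z v, v⟫_ℂ).re ≤
      Fintype.card (Alt n) * (η + (1 - ε / 2) ^ L) * ‖v‖ ^ 2 := by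
  rw [← Complex.re_sum, ← sum_inner, ← LinearMap.sum_apply]
  refine avg_le ρ y L _ (fun W hW => ?_) v
  have hirr := AMP1.irr_res ρ W hW
  have hnt : ∃ g v, (res ρ W hW.2.1) g v ≠ v := by
    by_contra hcon
    push Not at hcon
    apply hW.1
    rw [Submodule.eq_bot_iff]
    intro w hw
    refine hni w fun g => ?_
    exact congrArg (fun z : W => (z : V)) (hcon g ⟨w, hw⟩)
  exact trace_le _ hk y ε η hε (h.1 W _ hirr hnt).1 L

/-- **decay of class functions** -/
theorem class_decay {n k : ℕ} (hk : 1 ≤ k) (ε η : ℝ) (hε : ε ≤ 2)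
    (y : Fin k → Alt n) (h : Pool.Agent.R236.Exc.FewExceptional n ε η y) (f : Alt n → ℝ)
    (hf : ∀ g h, f (h * g * h⁻¹) = f g) (h0 : ∑ g, f g = 0) (L : ℕ) :
    ∑ g, (lz (rmul y))^[L] f g ^ 2 ≤ (η + (1 - ε / 2) ^ (2 * L)) * ∑ g, f g ^ 2 := by
  set κ : ℝ := η + (1 - ε / 2) ^ (2 * L) with hκ
  have hmem : toFA f ∈ M0 n := by
    change ∑ g, toFA f g = 0
    simp only [toFA_apply]
    rw [← Complex.ofReal_sum, h0]; simp
  set ρ0 : Alt n →* (M0 n ≃ₗᵢ[ℂ] M0 n) := res (RR n) (M0 n) (M0_inv n) with hρ0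
  set F0 : M0 n := ⟨toFA f, hmem⟩ with hF0
  have hni : ∀ v : M0 n, (∀ g, ρ0 g v = v) → v = 0 := by
    intro w hw
    have h1 : ∀ g, RR n g (w : FA n) = w := by
      intro g
      have h2 := congrArg (fun z : M0 n => (z : FA n)) (hw g)
      exact h2
    have h2 : ∀ g : Alt n, (w : FA n) g = (w : FA n) 1 := by
      intro g
      have := congrArg (fun F : FA n => F 1) (h1 g)
      simpa [RR_apply] using this
    have h3 : ∑ g, (w : FA n) g = 0 := w.2
    simp only [h2] at h3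
    rw [Finset.sum_const, Finset.card_univ, nsmul_eq_mul] at h3
    have h4 : (Fintype.card (Alt n) : ℂ) ≠ 0 := by
      exact_mod_cast Fintype.card_ne_zero
    have h5 : (w : FA n) 1 = 0 := by
      rcases mul_eq_zero.1 h3 with h | h
      · exact absurd h h4
      · exact h
    ext g
    rw [h2, h5]
    rfl
  have key := avg_le' hk ε η hε y h ρ0 hni (2 * L) F0
  rw [← hκ] at key
  have hG : (0 : ℝ) < Fintype.card (Alt n) := by exact_mod_cast Fintype.card_pos
  have hnF : ‖F0‖ ^ 2 = ∑ g, f g ^ 2 := by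
    rw [Submodule.coe_norm]; exact norm_toFA f
  have hinner : ∀ (g : Alt n) (v w : FA n), ⟪RR n g v, w⟫_ℂ = ⟪v, RR n g⁻¹ w⟫_ℂ := by
    intro g v w
    have h2 : w = RR n g (RR n g⁻¹ w) := by
      rw [map_inv]
      exact ((RR n g).apply_symm_apply w).symm
    conv_lhs => rw [h2]
    exact (RR n g).inner_map_map _ _
  have e1 : ∀ z : Alt n, ⟪cj ρ0 (TL ρ0 y ^ (2 * L)) z F0, F0⟫_ℂ =
      ⟪(TL (RR n) y ^ (2 * L)) (toFA f), toFA f⟫_ℂ := by
    intro z
    rw [Submodule.coe_inner]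
    have h1 : ((cj ρ0 (TL ρ0 y ^ (2 * L)) z F0 : M0 n) : FA n) =
        RR n z (LT n z ((TL (RR n) y ^ (2 * L)) (toFA f))) := by
      simp only [cj, Module.End.mul_apply, op_apply]
      rw [hρ0, res_apply, TL_res_pow, res_apply]
      change RR n z ((TL (RR n) y ^ (2 * L)) (RR n z⁻¹ (toFA f))) = _
      rw [class_RR f hf z, LT_comm_pow]
    rw [h1, hinner]
    change ⟪_, RR n z⁻¹ (toFA f)⟫_ℂ = _
    rw [class_RR f hf z]
    exact (LT n z).inner_map_map _ _
  have e2 : ⟪(TL (RR n) y ^ (2 * L)) (toFA f), toFA f⟫_ℂ =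
      ((∑ g, (lz (rmul y))^[L] f g ^ 2 : ℝ) : ℂ) := by
    rw [two_mul, pow_add, Module.End.mul_apply, pow_symm (TL_symm (RR n) y) L, TL_pow_toFA,
      inner_self_eq_norm_sq_to_K, ← norm_toFA]
    push_cast
    rfl
  have e3 : ∀ z : Alt n, (⟪cj ρ0 (TL ρ0 y ^ (2 * L)) z F0, F0⟫_ℂ).re =
      ∑ g, (lz (rmul y))^[L] f g ^ 2 := fun z => by rw [e1, e2, Complex.ofReal_re]
  rw [Finset.sum_congr rfl fun z _ => e3 z, Finset.sum_const,
    Finset.card_univ, nsmul_eq_mul, hnF, mul_assoc] at key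
  exact le_of_mul_le_mul_left key hG

end

end Pool.Agent.L0h8.ND
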