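import Pool.Agent.L0h8.ND.Comb
import Pool.Agent.L0h8.ND.Cls

/-!
Permutations with a long cycle and a short one; the deterministic part of the diameter bound.
-/

set_option autoImplicit false
set_option linter.unusedSectionVars false

namespace Pool.Agent.L0h8.ND
open Equiv Equiv.Perm Finset RC14

/-- the `m`-th power of a permutation of type `(m, s)`, `s` prime, `s ∤ m`, is an `s`-cycle -/
lemma pow_cycle {α : Type*} [Fintype α] [DecidableEq α] {g : Perm α} {m s : ℕ} (hm : 2 ≤ m)
    (hs : s.Prime) (hsm : ¬ s ∣ m) (hg : g.cycleType = {m, s}) : IsS s (g ^ m) := by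
  have hcop : Nat.Coprime m s := ((Nat.Prime.coprime_iff_not_dvd hs).2 hsm).symm
  have hord : orderOf g = m * s := by
    rw [← lcm_cycleType, hg]
    change Multiset.lcm (m ::ₘ {s}) = _
    rw [Multiset.lcm_cons, Multiset.lcm_singleton, normalize_eq]
    exact hcop.lcm_eq_mul
  have hord2 : orderOf (g ^ m) = s := by
    rw [orderOf_pow' g (by omega), hord, Nat.gcd_eq_right ⟨s, rfl⟩,
      Nat.mul_div_cancel_left _ (by omega)]
  have hmem : m ∈ g.cycleType := by rw [hg]; simp
  obtain ⟨c, τ, h1, h2, h3, h4⟩ := mem_cycleType_iff.1 hmem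
  have hsupp : g.support.card = m + s := by
    rw [← sum_cycleType, hg]; simp
  have hτ : τ.support.card = s := by
    rw [h1, h2.card_support_mul, h4] at hsupp; omega
  have hpow : g ^ m = τ ^ m := by
    rw [h1, h2.commute.mul_pow]
    have : c ^ m = 1 := by rw [← h4, ← h3.orderOf, pow_orderOf_eq_one]
    rw [this, one_mul]
  have hle : (g ^ m).support.card ≤ s := by
    rw [hpow, ← hτ]
    exact card_le_card (support_pow_le _ _)
  have hcyc : (g ^ m).IsCycle := by
    refine isCycle_of_prime_order (by rw [hord2]; exact hs) ?_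
    rw [hord2]
    have := hs.pos
    omega
  refine ⟨hcyc, ?_⟩
  rw [← hcyc.orderOf, hord2]

/-- the elements of `A_n` of cycle type `(m, s)` -/
def Cms (n m s : ℕ) : Finset (Alt n) := univ.filter fun g => (g : Perm (Fin n)).cycleType = {m, s}

lemma card_Cms {n m s : ℕ} (hm : 2 ≤ m) (hs : 2 ≤ s) (hms : m ≠ s) (h1 : m + s ≤ n)
    (h2 : n ≤ m + s + 1) (hev : Even (m + s)) :
    Fintype.card (Alt n) ≤ (Cms n m s).card * n ^ 2 := by
  have hcard := card_of_cycleType_mul_eq (Fin n) ({m, s} : Multiset ℕ)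
  have hsum : ({m, s} : Multiset ℕ).sum = m + s := by simp
  have hprod : ({m, s} : Multiset ℕ).prod = m * s := by simp
  have hcond : ({m, s} : Multiset ℕ).sum ≤ Fintype.card (Fin n) ∧
      ∀ a ∈ ({m, s} : Multiset ℕ), 2 ≤ a := by
    rw [hsum, Fintype.card_fin]
    refine ⟨h1, fun a ha => ?_⟩
    simp only [Multiset.insert_eq_cons, Multiset.mem_cons, Multiset.mem_singleton] at ha
    rcases ha with rfl | rfl <;> assumption
  have hnodup : ({m, s} : Multiset ℕ).Nodup := by
    simp [hms]
  have hcount : ∏ a ∈ ({m, s} : Multiset ℕ).toFinset, (({m, s} : Multiset ℕ).count a).factorial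
      = 1 := by
    refine Finset.prod_eq_one fun a ha => ?_
    rw [Multiset.count_eq_one_of_mem hnodup (Multiset.mem_toFinset.1 ha)]
    rfl
  have hfac : (Fintype.card (Fin n) - (m + s)).factorial = 1 := by
    rw [Fintype.card_fin]
    have : n - (m + s) = 0 ∨ n - (m + s) = 1 := by omega
    rcases this with h | h <;> rw [h] <;> rfl
  rw [if_pos hcond, hsum, hprod, hcount, hfac, one_mul, mul_one, Fintype.card_fin] at hcard
  have hsign : ∀ g : Perm (Fin n), g.cycleType = {m, s} → g ∈ Alt n := by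
    intro g hg
    rw [mem_alternatingGroup, sign_of_cycleType, hg, hsum]
    have : Multiset.card ({m, s} : Multiset ℕ) = 2 := by simp
    rw [this]
    exact Even.neg_one_pow (hev.add (by decide))
  have hC : (Cms n m s).card = #({g | g.cycleType = {m, s}} : Finset (Perm (Fin n))) := by
    refine Finset.card_nbij (fun g => (g : Perm (Fin n))) ?_ ?_ ?_
    · intro g hg
      simpa [Cms] using hg
    · intro g _ h _ hgh
      exact Subtype.ext hgh
    · intro g hg
      have hg' : g.cycleType = {m, s} := by simpa using hg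
      exact ⟨⟨g, hsign g hg'⟩, by simpa [Cms] using hg', rfl⟩
  have hle : Fintype.card (Alt n) ≤ n.factorial := by
    have := Fintype.card_subtype_le (fun g : Perm (Fin n) => g ∈ Alt n)
    rw [Fintype.card_perm, Fintype.card_fin] at this
    exact this
  calc Fintype.card (Alt n) ≤ n.factorial := hle
    _ = (Cms n m s).card * (m * s) := by rw [hC, hcard]
    _ ≤ (Cms n m s).card * n ^ 2 := by
      refine Nat.mul_le_mul_left _ ?_
      rw [pow_two]
      exact Nat.mul_le_mul (by omega) (by omega)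

lemma Cms_conj {n m s : ℕ} (g h : Alt n) : h * g * h⁻¹ ∈ Cms n m s ↔ g ∈ Cms n m s := by
  simp only [Cms, mem_filter, mem_univ, true_and]
  rw [Subgroup.coe_mul, Subgroup.coe_mul, Subgroup.coe_inv, cycleType_conj]

/-- an `s`-cycle and transitivity on `s`-tuples -/
lemma cycles_mem_ball {n k s : ℕ} {x : Fin k → Alt n} {T t : ℕ} {h : Alt n}
    (hh : h ∈ ball x T) (hc : IsS s (h : Perm (Fin n)))
    (htr : ∀ a b : Tup s n, ∃ u ∈ ball x t, mv (u : Perm (Fin n)) a = b)
    {z : Alt n} (hz : IsS s (z : Perm (Fin n))) : z ∈ ball x (T + 2 * t) := by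
  obtain ⟨σ, hσ⟩ : ∃ σ : Perm (Fin n), (z : Perm (Fin n)) = σ * h * σ⁻¹ := by
    have h1 : IsConj (h : Perm (Fin n)) z :=
      hc.1.isConj hz.1 (by rw [hc.2, hz.2])
    obtain ⟨σ, hσ⟩ := isConj_iff.1 h1
    exact ⟨σ, hσ.symm⟩
  have e := ((h : Perm (Fin n)).support).equivFinOfCardEq hc.2
  let a : Tup s n := ⟨fun i => (e.symm i : Fin n), Subtype.val_injective.comp e.symm.injective⟩
  obtain ⟨u, hu, hua⟩ := htr a (mv σ a)
  have h2 : (σ⁻¹ * (u : Perm (Fin n))).Disjoint (h : Perm (Fin n)) := by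
    intro p
    by_cases hp : p ∈ (h : Perm (Fin n)).support
    · left
      have h3 : a (e ⟨p, hp⟩) = p := by
        change ((e.symm (e ⟨p, hp⟩) : _) : Fin n) = p
        rw [Equiv.symm_apply_apply]
      have h4 := DFunLike.congr_fun hua (e ⟨p, hp⟩)
      rw [mv_apply, mv_apply, h3] at h4
      rw [mul_apply, h4]
      exact σ.symm_apply_apply p
    · right
      rwa [notMem_support] at hp
  have h5 := h2.commute.eq
  have h6 : z = u * h * u⁻¹ := by
    apply Subtype.ext
    rw [Subgroup.coe_mul, Subgroup.coe_mul, Subgroup.coe_inv, hσ]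
    have h7 : (u : Perm (Fin n)) * h = σ * h * (σ⁻¹ * u) := by
      rw [mul_assoc σ, ← h5]
      group
    rw [h7]
    group
  rw [h6]
  exact conj_mem_ball hh hu

/-- the deterministic part -/
theorem det {n k s m L t : ℕ} {x : Fin k → Alt n} {g : Alt n} (hg : g ∈ ball x L)
    (hgC : g ∈ Cms n m s) (hm : 2 ≤ m) (hmn : m ≤ n) (hs : s.Prime) (hs4 : 4 ≤ s)
    (hsm : ¬ s ∣ m) (hn : 6 ≤ n)
    (htr : ∀ a b : Tup s n, ∃ u ∈ ball x t, mv (u : Perm (Fin n)) a = b) (w : Alt n) :
    w ∈ ball x ((4 * (n / (s / 4)) + 8) * (n * L + 2 * t)) := by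
  have hgC' : (g : Perm (Fin n)).cycleType = {m, s} := by simpa [Cms] using hgC
  have h1 : g ^ m ∈ ball x (m * L) := pow_mem_ball hg m
  have h2 : IsS s ((g ^ m : Alt n) : Perm (Fin n)) := by
    rw [Subgroup.coe_pow]; exact pow_cycle hm hs hsm hgC'
  have hodd : Odd s := hs.odd_of_ne_two (by omega)
  have hcy : ∀ z : Perm (Fin n), IsS s z → z ∈ Alt n := by
    intro z hz
    rw [mem_alternatingGroup, hz.1.sign, hz.2, hodd.neg_one_pow]
    simp
  have hsig : sign (w : Perm (Fin n)) = 1 := w.2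
  obtain ⟨l, hl1, hl2, hl3⟩ := even_factor hs4 h2 hn (w : Perm (Fin n)) hsig
  let l' : List (Alt n) := l.pmap (fun z hz => (⟨z, hz⟩ : Alt n)) (fun z hz => hcy z (hl2 z hz))
  have hl' : l'.map (Subgroup.subtype (Alt n)) = l := by
    simp only [l', List.map_pmap]
    simp
  have hw : l'.prod = w := by
    apply Subtype.ext
    rw [← hl3, ← hl', ← map_list_prod]
    rfl
  rw [← hw]
  refine list_prod_mem_ball l' (by simpa [l'] using hl1) fun z hz => ?_
  have hzl : (z : Perm (Fin n)) ∈ l := by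
    rw [← hl']; exact List.mem_map_of_mem hz
  refine ball_mono ?_ (cycles_mem_ball h1 h2 htr (hl2 _ hzl))
  exact Nat.add_le_add_right (Nat.mul_le_mul_right _ hmn) _

end Pool.Agent.L0h8.ND
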