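import Pool.Agent.L0h8.ND.Cyc
import Pool.Agent.L0h8.ND.Num
import Pool.Agent.R236.ExcC
import Pool.Agent.Results.MP_75608d_al.GapAllTuples

/-!
The diameter of `A_n` with respect to random generators: assembly.
-/

set_option autoImplicit false
set_option linter.unusedSectionVars false

namespace Pool.Agent.L0h8.ND
open Equiv Finset RC14 Filter Topology
open Pool.Agent.R236.Exc (FewExceptional)
open Pool.Agent.Results.MP_75608d_al (GapAllTuples.GapUpTo)

/-- tuples can be moved by short words -/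
lemma trans_tuples {n m k s t : ℕ} (hk : 1 ≤ k) {ε : ℝ} (hε : ε ≤ 2) {y : Fin k → Alt n}
    (h : Pool.Agent.Results.MP_75608d_al.GapAllTuples.GapUpTo n m ε y) (hs : s ≤ m)
    (ht : (1 - ε / 2) ^ t * ((n : ℝ) ^ s) ^ 2 < 1) (a b : Tup s n) :
    ∃ u ∈ ball y t, mv (u : Perm (Fin n)) a = b := by
  have hgap : Gap (tmul s y) ε := fun F hF => h.2 s hs F hF
  have hcard : (Fintype.card (Tup s n) : ℝ) ≤ (n : ℝ) ^ s := by
    have h1 : Fintype.card (Tup s n) = n.descFactorial s := by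
      simp only [Tup, Fintype.card_embedding_eq, Fintype.card_fin]
    rw [h1]
    exact_mod_cast Nat.descFactorial_le_pow n s
  obtain ⟨g, hg, hgab⟩ := trans_of_gap hk (tmul s y) ε hε hgap t (by
    refine lt_of_le_of_lt ?_ ht
    have : (0 : ℝ) ≤ (1 - ε / 2) ^ t := pow_nonneg (by linarith) _
    gcongr) a b
  obtain ⟨u, hu, huv⟩ := ball_tmul hg
  exact ⟨u, hu, by rw [← huv, hgab]⟩

/-- few first generators are bad -/
lemma bad_le {n k m s L : ℕ} (hk : 1 ≤ k) {ε η : ℝ} (hη : 0 ≤ η) (hε : ε ≤ 2) {y : Fin k → Alt n}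
    (h : FewExceptional n ε η y) (hC : Fintype.card (Alt n) ≤ (Cms n m s).card * n ^ 2) :
    (Nat.card {g : Alt n // ∀ u ∈ ball y L, g * u ∉ Cms n m s} : ℝ) ≤
      (η + (1 - ε / 2) ^ (2 * L)) * (n : ℝ) ^ 2 * Fintype.card (Alt n) := by
  classical
  set C := Cms n m s with hCdef
  have hG : 0 < Fintype.card (Alt n) := Fintype.card_pos
  have hG' : (0 : ℝ) < Fintype.card (Alt n) := by exact_mod_cast hG
  have hC0 : 0 < C.card := by
    by_contra hcon
    have : C.card = 0 := by omega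
    rw [this, zero_mul] at hC
    omega
  have hC0' : (0 : ℝ) < C.card := by exact_mod_cast hC0
  set κ : ℝ := η + (1 - ε / 2) ^ (2 * L) with hκ
  have hκ0 : 0 ≤ κ := add_nonneg hη (pow_nonneg (by linarith) _)
  have hind : ∀ g, (Set.indicator (C : Set (Alt n)) 1 g : ℝ) = if g ∈ C then 1 else 0 := by
    intro g; simp [Set.indicator_apply]
  have h1 := few_bad hk (rmul y) L C hC0 κ hκ0 (by
    refine class_decay hk ε η hε y h _ ?_ ?_ L
    · intro g u
      have : (u * g * u⁻¹ ∈ C) ↔ g ∈ C := Cms_conj g u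
      simp only [hind, this]
    · rw [Finset.sum_sub_distrib]
      simp only [hind]
      rw [Finset.sum_ite_mem, Finset.univ_inter, Finset.sum_const, Finset.sum_const,
        Finset.card_univ, nsmul_eq_mul, nsmul_eq_mul]
      field_simp
      ring)
  have h2 : Nat.card {g : Alt n // ∀ u ∈ ball y L, g * u ∉ C} ≤
      {g : Alt n | ∀ p ∈ ball (rmul y) L, p g ∉ C}.ncard := by
    rw [← Nat.card_coe_set_eq]
    refine Nat.card_le_card_of_injective
      (fun g => (⟨g.1, ?_⟩ : {g : Alt n | ∀ p ∈ ball (rmul y) L, p g ∉ C})) ?_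
    · intro p hp
      obtain ⟨u, hu, huv⟩ := ball_rmul hp
      rw [huv]
      exact g.2 u hu
    · intro a b hab
      exact Subtype.ext (congrArg (fun z => z.1) hab)
  have h3 : (Nat.card {g : Alt n // ∀ u ∈ ball y L, g * u ∉ C} : ℝ) * C.card ≤
      κ * (Fintype.card (Alt n) : ℝ) ^ 2 := by
    refine le_trans ?_ h1
    have : (Nat.card {g : Alt n // ∀ u ∈ ball y L, g * u ∉ C} : ℝ) ≤
      ({g : Alt n | ∀ p ∈ ball (rmul y) L, p g ∉ C}.ncard : ℝ) := by exact_mod_cast h2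
    gcongr
  have hC' : (Fintype.card (Alt n) : ℝ) ≤ (C.card : ℝ) * (n : ℝ) ^ 2 := by exact_mod_cast hC
  have h4 : (Nat.card {g : Alt n // ∀ u ∈ ball y L, g * u ∉ C} : ℝ) * C.card ≤
      (κ * (n : ℝ) ^ 2 * Fintype.card (Alt n)) * C.card := by
    refine h3.trans ?_
    calc κ * (Fintype.card (Alt n) : ℝ) ^ 2
        = κ * (Fintype.card (Alt n) : ℝ) * (Fintype.card (Alt n) : ℝ) := by ring
      _ ≤ κ * (Fintype.card (Alt n) : ℝ) * ((C.card : ℝ) * (n : ℝ) ^ 2) := by gcongr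
      _ = _ := by ring
  exact le_of_mul_le_mul_right h4 hC0'

/-- the parameters of `FewExceptional` -/
lemma few_of_good1 (d : ℝ) (hd : 0 < d) (hd1 : d ≤ 1 / 8) (k : ℕ) (hk : 1 ≤ k) (c : ℝ)
    (hc : 0 < c) (hc1 : c ≤ 1) :
    ∀ᶠ n : ℕ in atTop, ∀ x : Fin k → Alt n, Good1 n (TE852.Rr (1 - d) n) c x →
      FewExceptional n (c / (100 * k)) (Real.exp (-(n : ℝ) ^ (1 - 4 * d))) x := by
  filter_upwards [Pool.Agent.R236.Exc.params (4 * d) (by linarith) (by linarith)] with n hn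
  rw [show 1 - 4 * d / 4 = 1 - d by ring] at hn
  obtain ⟨N, m, X, hX, hN, hNn, hn1, hNj, hr, hm, hmr, hmn, hT, hF, hη, hXN⟩ := hn
  intro x hx
  exact Pool.Agent.R236.Exc.few_of_good n k hk _ c _ hc hc1 x hx N m X hX hN hNn hn1 hNj hr hm hmr
    hmn hT hF hη hXN

/-- **the main theorem** -/
theorem main (δ : ℝ) (hδ : 0 < δ) : ∃ k₀ : ℕ, ∀ k ≥ k₀, ∀ ε₀ : ℝ, 0 < ε₀ →
    ∀ᶠ n : ℕ in atTop, (Nat.card {x : Fin k → Alt n // ¬ ∃ T : ℕ, (T : ℝ) ≤ (n : ℝ) ^ (1 + δ) ∧
      ∀ w : Alt n, w ∈ ball x T} : ℝ) ≤ ε₀ * (Fintype.card (Alt n) : ℝ) ^ k := by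
  set d : ℝ := min δ 1 / 8 with hd'
  have hd : 0 < d := by
    have : 0 < min δ 1 := lt_min hδ one_pos
    positivity
  have hd1 : d ≤ 1 / 8 := by
    have : min δ 1 ≤ 1 := min_le_right _ _
    linarith
  have hdδ : 8 * d ≤ δ := by
    have : min δ 1 ≤ δ := min_le_left _ _
    linarith
  obtain ⟨k0, hk0⟩ := TE852.GAPE (1 - d) (TE852.TEMAIN (1 - d) (by linarith))
  refine ⟨k0 + 2, fun k' hk' ε₀ hε₀ => ?_⟩
  obtain ⟨k, rfl⟩ : ∃ k, k' = k + 1 := ⟨k' - 1, by omega⟩
  obtain ⟨c', hc', B, hB, hgap⟩ := hk0 k (by omega)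
  have hk1 : 1 ≤ k := by omega
  have hkpos : (0 : ℝ) < k := by exact_mod_cast hk1
  have hk1r : (1 : ℝ) ≤ k := by exact_mod_cast hk1
  set c : ℝ := min c' 1 with hcdef
  have hc : 0 < c := lt_min hc' one_pos
  have hc1 : c ≤ 1 := min_le_right _ _
  have hcc : ∀ (n : ℕ) (x : Fin k → Alt n), Good1 n (TE852.Rr (1 - d) n) c' x →
      Good1 n (TE852.Rr (1 - d) n) c x := by
    intro n x hx j h1 h2 v hv
    refine le_trans ?_ (hx j h1 h2 v hv)
    have : c ≤ c' := min_le_left _ _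
    gcongr
  have hε1 : 0 < c / (2 * k) := by positivity
  have hε1' : c / (2 * k) ≤ 2 := by
    rw [div_le_iff₀ (by positivity)]; nlinarith
  have hε2 : 0 < c / (100 * k) := by positivity
  have hε2' : c / (100 * k) ≤ 2 := by
    rw [div_le_iff₀ (by positivity)]; nlinarith
  have hm2 : ∀ᶠ n : ℕ in atTop, TE852.Rr (1 - d) n + 2 ≤ n := by
    filter_upwards [ev_le (1 - d) 1 2 (by linarith), eventually_ge_atTop 4] with n h1 h2
    have h3 : (TE852.Rr (1 - d) n : ℝ) ≤ (n : ℝ) ^ (1 - d) := Nat.floor_le (by positivity)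
    rw [Real.rpow_one] at h1
    have h4 : (4 : ℝ) ≤ n := by exact_mod_cast h2
    have h5 : (TE852.Rr (1 - d) n : ℝ) + 2 ≤ n := by linarith
    exact_mod_cast h5
  filter_upwards [hgap, hm2, few_of_good1 d hd hd1 k hk1 c hc hc1,
    num d _ _ (ε₀ / 2) hd hd1 hε1 hε1' hε2 hε2' (by positivity),
    ev_const 1 (2 * B / ε₀) one_pos, eventually_ge_atTop 1] with n h1 h2 h3 h4 h5 h6
  obtain ⟨s, m, L, t, hs, hs4, hsm, hm, hmn, hms, hsn, hns, hev, hn6, hsr, ht, hκ, hlen⟩ := h4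
  rw [Real.rpow_one, div_le_iff₀ hε₀] at h5
  have hn : (0 : ℝ) < n := by exact_mod_cast h6
  have hn1 : (1 : ℝ) ≤ n := by exact_mod_cast h6
  set P : (Fin k → Alt n) → Prop := fun y => Good1 n (TE852.Rr (1 - d) n) c' y with hP
  set Bad : (Fin k → Alt n) → Alt n → Prop := fun y g =>
    ¬ ∃ T : ℕ, (T : ℝ) ≤ (n : ℝ) ^ (1 + δ) ∧
      ∀ w : Alt n, w ∈ ball (Fin.cons g y : Fin (k + 1) → Alt n) T with hBad
  have hbad : ∀ y, P y → (Nat.card {g : Alt n // Bad y g} : ℝ) ≤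
      (ε₀ / 2) * Fintype.card (Alt n) := by
    intro y hy
    have hfew := h3 y (hcc n y hy)
    have htup := Pool.Agent.Results.MP_75608d_al.GapAllTuples.gap_of_good n _ k h2 hk1 c y
      (hcc n y hy)
    have hC := card_Cms hm (by omega : 2 ≤ s) hms hsn hns hev
    have h7 := bad_le (L := L) hk1 (Real.exp_pos _).le hε2' hfew hC
    have h8 : Nat.card {g : Alt n // Bad y g} ≤
        Nat.card {g : Alt n // ∀ u ∈ ball y L, g * u ∉ Cms n m s} := by
      refine RC14.card_mono _ _ fun g hg => ?_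
      by_contra hcon
      push Not at hcon
      obtain ⟨u, hu, huC⟩ := hcon
      apply hg
      set x : Fin (k + 1) → Alt n := Fin.cons g y with hx
      have hsub : ∀ T, ball y T ⊆ ball x T := by
        intro T
        have : y = x ∘ Fin.succ := by
          funext i; simp [hx]
        conv_lhs => rw [this]
        exact ball_sub Fin.succ
      have hgu : g * u ∈ ball x (L + 1) := by
        have h9 : g ∈ ball x 1 := by
          have := gen_mem_ball (x := x) 0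
          simpa [hx] using this
        have := mul_mem_ball h9 (hsub L hu)
        exact ball_mono (by omega) this
      refine ⟨(4 * (n / (s / 4)) + 8) * (n * (L + 1) + 2 * t), hlen.trans ?_, fun w => ?_⟩
      · exact Real.rpow_le_rpow_of_exponent_le hn1 (by linarith)
      · refine det hgu huC hm hmn hs hs4 hsm hn6 (fun a b => ?_) w
        obtain ⟨v, hv, hvab⟩ := trans_tuples hk1 hε1' htup hsr ht a b
        exact ⟨v, hsub t hv, hvab⟩
    have h8' : (Nat.card {g : Alt n // Bad y g} : ℝ) ≤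
        (Nat.card {g : Alt n // ∀ u ∈ ball y L, g * u ∉ Cms n m s} : ℝ) := by exact_mod_cast h8
    refine h8'.trans (h7.trans ?_)
    gcongr
  have hprod := card_prod_bound P Bad (ε₀ / 2) (by positivity) hbad
  have hequiv : Nat.card {x : Fin (k + 1) → Alt n // ¬ ∃ T : ℕ, (T : ℝ) ≤ (n : ℝ) ^ (1 + δ) ∧
      ∀ w : Alt n, w ∈ ball x T} =
      Nat.card {p : (Fin k → Alt n) × Alt n // Bad p.1 p.2} := by
    let e : (Fin k → Alt n) × Alt n ≃ (Fin (k + 1) → Alt n) :=
      (Equiv.prodComm _ _).trans (Fin.consEquiv (fun _ : Fin (k + 1) => Alt n))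
    refine (RC14.card_equiv e (fun p => Bad p.1 p.2) _ fun p => ?_).symm
    rfl
  rw [hequiv]
  refine hprod.trans ?_
  have hcardF : (Fintype.card (Fin k → Alt n) : ℝ) = (Fintype.card (Alt n) : ℝ) ^ k := by
    rw [Fintype.card_fun, Fintype.card_fin]; push_cast; rfl
  rw [hcardF]
  have hA : (0 : ℝ) < Fintype.card (Alt n) := by exact_mod_cast Fintype.card_pos
  have h9 : B / n ≤ ε₀ / 2 := by
    rw [div_le_iff₀ hn]; linarith
  calc (Nat.card {x : Fin k → Alt n // ¬ P x} : ℝ) * Fintype.card (Alt n) +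
        ε₀ / 2 * (Fintype.card (Alt n) : ℝ) ^ k * Fintype.card (Alt n)
      ≤ (B / n * (Fintype.card (Alt n) : ℝ) ^ k) * Fintype.card (Alt n) +
        ε₀ / 2 * (Fintype.card (Alt n) : ℝ) ^ k * Fintype.card (Alt n) := by gcongr
    _ ≤ (ε₀ / 2 * (Fintype.card (Alt n) : ℝ) ^ k) * Fintype.card (Alt n) +
        ε₀ / 2 * (Fintype.card (Alt n) : ℝ) ^ k * Fintype.card (Alt n) := by gcongr
    _ = ε₀ * (Fintype.card (Alt n) : ℝ) ^ (k + 1) := by ring

end Pool.Agent.L0h8.ND
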