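import Mathlib

/-!
Word balls in groups, and the lazy walk of a family of permutations of a finite set.
-/

set_option autoImplicit false
set_option linter.unusedSectionVars false

namespace Pool.Agent.L0h8.ND
open Finset

section Ball
variable {G : Type*} [Group G] {k : ℕ}

/-- products of at most `t` factors `x i`, `(x i)⁻¹` -/
def ball (x : Fin k → G) (t : ℕ) : Set G :=
  {g | ∃ w : List G, w.length ≤ t ∧ (∀ y ∈ w, ∃ i, y = x i ∨ y = (x i)⁻¹) ∧ w.prod = g}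

variable {x : Fin k → G}

lemma ball_mono {s t : ℕ} (h : s ≤ t) : ball x s ⊆ ball x t := by
  rintro g ⟨w, h1, h2, h3⟩
  exact ⟨w, h1.trans h, h2, h3⟩

lemma one_mem_ball {t : ℕ} : (1 : G) ∈ ball x t := ⟨[], by simp, by simp, by simp⟩

lemma gen_mem_ball (i : Fin k) : x i ∈ ball x 1 :=
  ⟨[x i], by simp, by intro y hy; exact ⟨i, Or.inl (by simpa using hy)⟩, by simp⟩

lemma geninv_mem_ball (i : Fin k) : (x i)⁻¹ ∈ ball x 1 :=
  ⟨[(x i)⁻¹], by simp, by intro y hy; exact ⟨i, Or.inr (by simpa using hy)⟩, by simp⟩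

lemma mul_mem_ball {s t : ℕ} {g h : G} (hg : g ∈ ball x s) (hh : h ∈ ball x t) :
    g * h ∈ ball x (s + t) := by
  obtain ⟨w, h1, h2, rfl⟩ := hg
  obtain ⟨w', h1', h2', rfl⟩ := hh
  refine ⟨w ++ w', by simp; omega, ?_, by simp⟩
  intro y hy
  rcases List.mem_append.1 hy with h | h
  · exact h2 y h
  · exact h2' y h

lemma inv_mem_ball {s : ℕ} {g : G} (hg : g ∈ ball x s) : g⁻¹ ∈ ball x s := by
  obtain ⟨w, h1, h2, rfl⟩ := hg
  refine ⟨(w.map (fun y => y⁻¹)).reverse, by simpa using h1, ?_, (List.prod_inv_reverse w).symm⟩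
  intro y hy
  rw [List.mem_reverse, List.mem_map] at hy
  obtain ⟨a, ha, rfl⟩ := hy
  obtain ⟨i, hi | hi⟩ := h2 a ha
  · exact ⟨i, Or.inr (by rw [hi])⟩
  · exact ⟨i, Or.inl (by rw [hi, inv_inv])⟩

lemma pow_mem_ball {s : ℕ} {g : G} (hg : g ∈ ball x s) (m : ℕ) : g ^ m ∈ ball x (m * s) := by
  induction m with
  | zero => simpa using one_mem_ball
  | succ m ih =>
    rw [pow_succ, Nat.succ_mul]
    exact mul_mem_ball ih hg

lemma conj_mem_ball {s t : ℕ} {g v : G} (hg : g ∈ ball x s) (hv : v ∈ ball x t) :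
    v * g * v⁻¹ ∈ ball x (s + 2 * t) := by
  have := mul_mem_ball (mul_mem_ball hv hg) (inv_mem_ball hv)
  exact ball_mono (by omega) this

lemma list_prod_mem_ball {s K : ℕ} (l : List G) (hl : l.length ≤ K) (h : ∀ z ∈ l, z ∈ ball x s) :
    l.prod ∈ ball x (K * s) := by
  have key : l.prod ∈ ball x (l.length * s) := by
    clear hl
    induction l with
    | nil => simpa using one_mem_ball
    | cons a l ih =>
      rw [List.prod_cons, List.length_cons, Nat.succ_mul, add_comm]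
      exact mul_mem_ball (h a (by simp)) (ih fun z hz => h z (by simp [hz]))
  exact ball_mono (Nat.mul_le_mul_right _ hl) key

/-- the ball of a subfamily -/
lemma ball_sub {k' : ℕ} (f : Fin k' → Fin k) {t : ℕ} : ball (x ∘ f) t ⊆ ball x t := by
  rintro g ⟨w, h1, h2, h3⟩
  refine ⟨w, h1, fun y hy => ?_, h3⟩
  obtain ⟨i, hi⟩ := h2 y hy
  exact ⟨f i, hi⟩

end Ball

section Mix
variable {Y : Type*} {k : ℕ}

/-- the walk -/
noncomputable def wk (τ : Fin k → Equiv.Perm Y) (F : Y → ℝ) (y : Y) : ℝ :=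
  (∑ i, (F (τ i y) + F ((τ i)⁻¹ y))) / (2 * k)

/-- the lazy walk -/
noncomputable def lz (τ : Fin k → Equiv.Perm Y) (F : Y → ℝ) (y : Y) : ℝ := (F y + wk τ F y) / 2

lemma wk_sub_const (hk : 1 ≤ k) (τ : Fin k → Equiv.Perm Y) (F : Y → ℝ) (c : ℝ) (y : Y) :
    wk τ (fun y => F y - c) y = wk τ F y - c := by
  have hkp : (0 : ℝ) < k := by exact_mod_cast hk
  unfold wk
  have : ∑ i, ((F (τ i y) - c) + (F ((τ i)⁻¹ y) - c)) =
      ∑ i, (F (τ i y) + F ((τ i)⁻¹ y)) - 2 * k * c := by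
    rw [show (2 * k * c : ℝ) = ∑ _i : Fin k, 2 * c by simp; ring, ← Finset.sum_sub_distrib]
    exact Finset.sum_congr rfl fun i _ => by ring
  rw [this]
  field_simp

lemma lz_sub_const (hk : 1 ≤ k) (τ : Fin k → Equiv.Perm Y) (F : Y → ℝ) (c : ℝ) (y : Y) :
    lz τ (fun y => F y - c) y = lz τ F y - c := by
  unfold lz
  rw [wk_sub_const hk]
  ring

lemma lz_iter_sub_const (hk : 1 ≤ k) (τ : Fin k → Equiv.Perm Y) (t : ℕ) (F : Y → ℝ) (c : ℝ) :
    (lz τ)^[t] (fun y => F y - c) = fun y => (lz τ)^[t] F y - c := by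
  induction t generalizing F with
  | zero => rfl
  | succ t ih =>
    rw [Function.iterate_succ_apply, Function.iterate_succ_apply, ← ih]
    congr 1
    ext y
    exact lz_sub_const hk τ F c y

variable [Fintype Y]

lemma sum_wk (hk : 1 ≤ k) (τ : Fin k → Equiv.Perm Y) (F : Y → ℝ) :
    ∑ y, wk τ F y = ∑ y, F y := by
  have hkp : (0 : ℝ) < k := by exact_mod_cast hk
  unfold wk
  rw [← Finset.sum_div, Finset.sum_comm]
  have : ∀ i, ∑ y, (F (τ i y) + F ((τ i)⁻¹ y)) = 2 * ∑ y, F y := by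
    intro i
    rw [Finset.sum_add_distrib, Equiv.sum_comp (τ i) F, Equiv.sum_comp (τ i)⁻¹ F]; ring
  simp_rw [this]
  rw [Finset.sum_const, Finset.card_univ, Fintype.card_fin, nsmul_eq_mul]
  field_simp

lemma sum_lz (hk : 1 ≤ k) (τ : Fin k → Equiv.Perm Y) (F : Y → ℝ) :
    ∑ y, lz τ F y = ∑ y, F y := by
  unfold lz
  rw [← Finset.sum_div, Finset.sum_add_distrib, sum_wk hk]; ring

lemma wk_sq_le (hk : 1 ≤ k) (τ : Fin k → Equiv.Perm Y) (F : Y → ℝ) :
    ∑ y, wk τ F y ^ 2 ≤ ∑ y, F y ^ 2 := by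
  have hkp : (0 : ℝ) < k := by exact_mod_cast hk
  have h1 : ∀ y, wk τ F y ^ 2 ≤ wk τ (fun y => F y ^ 2) y := by
    intro y
    simp only [wk]
    have h2 : (∑ i, (F (τ i y) + F ((τ i)⁻¹ y))) ^ 2 ≤
        k * ∑ i, (F (τ i y) + F ((τ i)⁻¹ y)) ^ 2 := by
      have := sq_sum_le_card_mul_sum_sq (s := (Finset.univ : Finset (Fin k)))
        (f := fun i => F (τ i y) + F ((τ i)⁻¹ y))
      simpa using this
    have h3 : ∑ i, (F (τ i y) + F ((τ i)⁻¹ y)) ^ 2 ≤
        2 * ∑ i, (F (τ i y) ^ 2 + F ((τ i)⁻¹ y) ^ 2) := by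
      rw [Finset.mul_sum]
      exact Finset.sum_le_sum fun i _ => by nlinarith [sq_nonneg (F (τ i y) - F ((τ i)⁻¹ y))]
    rw [div_pow, div_le_div_iff₀ (by positivity) (by positivity)]
    have h4 : (∑ i, (F (τ i y) + F ((τ i)⁻¹ y))) ^ 2 ≤
        2 * k * ∑ i, (F (τ i y) ^ 2 + F ((τ i)⁻¹ y) ^ 2) := by
      nlinarith
    nlinarith
  calc ∑ y, wk τ F y ^ 2 ≤ ∑ y, wk τ (fun y => F y ^ 2) y := Finset.sum_le_sum fun y _ => h1 y
    _ = _ := sum_wk hk τ _

/-- spectral gap `ε` on the functions of sum zero -/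
def Gap (τ : Fin k → Equiv.Perm Y) (ε : ℝ) : Prop :=
  ∀ F : Y → ℝ, ∑ y, F y = 0 → ∑ y, F y * wk τ F y ≤ (1 - ε) * ∑ y, F y ^ 2

lemma lz_step (hk : 1 ≤ k) (τ : Fin k → Equiv.Perm Y) (ε : ℝ) (h : Gap τ ε) (F : Y → ℝ)
    (h0 : ∑ y, F y = 0) : ∑ y, lz τ F y ^ 2 ≤ (1 - ε / 2) * ∑ y, F y ^ 2 := by
  have h1 := wk_sq_le hk τ F
  have h2 := h F h0
  have e1 : ∑ y, lz τ F y ^ 2 =
      (∑ y, F y ^ 2 + 2 * ∑ y, F y * wk τ F y + ∑ y, wk τ F y ^ 2) / 4 := by
    rw [Finset.mul_sum, ← Finset.sum_add_distrib, ← Finset.sum_add_distrib, Finset.sum_div]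
    exact Finset.sum_congr rfl fun g _ => by simp only [lz]; ring
  rw [e1]
  nlinarith

lemma lz_iter (hk : 1 ≤ k) (τ : Fin k → Equiv.Perm Y) (ε : ℝ) (hε : ε ≤ 2) (h : Gap τ ε) (t : ℕ)
    (F : Y → ℝ) (h0 : ∑ y, F y = 0) :
    ∑ y, (lz τ)^[t] F y ^ 2 ≤ (1 - ε / 2) ^ t * ∑ y, F y ^ 2 := by
  induction t generalizing F with
  | zero => simp
  | succ t ih =>
    rw [Function.iterate_succ_apply]
    refine (ih (lz τ F) (by rw [sum_lz hk, h0])).trans ?_
    rw [pow_succ, mul_assoc]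
    refine mul_le_mul_of_nonneg_left (lz_step hk τ ε h F h0) ?_
    exact pow_nonneg (by linarith) _

omit [Fintype Y] in
/-- the walk only sees the points at distance at most `t` -/
lemma lz_support (τ : Fin k → Equiv.Perm Y) (t : ℕ) (F : Y → ℝ) (y : Y)
    (h : (lz τ)^[t] F y ≠ 0) : ∃ g ∈ ball τ t, F (g y) ≠ 0 := by
  induction t generalizing y with
  | zero => exact ⟨1, one_mem_ball, by simpa using h⟩
  | succ t ih =>
    rw [Function.iterate_succ_apply'] at h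
    by_cases h0 : (lz τ)^[t] F y ≠ 0
    · obtain ⟨g, hg, hF⟩ := ih y h0
      exact ⟨g, ball_mono (by omega) hg, hF⟩
    · push Not at h0
      have h1 : wk τ ((lz τ)^[t] F) y ≠ 0 := by
        intro h1
        apply h
        change ((lz τ)^[t] F y + wk τ ((lz τ)^[t] F) y) / 2 = 0
        rw [h0, h1]; simp
      have h2 : ∃ i, (lz τ)^[t] F (τ i y) + (lz τ)^[t] F ((τ i)⁻¹ y) ≠ 0 := by
        by_contra hcon
        push Not at hcon
        apply h1
        unfold wk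
        rw [Finset.sum_eq_zero fun i _ => hcon i]; simp
      obtain ⟨i, hi⟩ := h2
      by_cases h3 : (lz τ)^[t] F (τ i y) = 0
      · rw [h3, zero_add] at hi
        obtain ⟨g, hg, hF⟩ := ih _ hi
        exact ⟨g * (τ i)⁻¹, mul_mem_ball hg (geninv_mem_ball i), hF⟩
      · obtain ⟨g, hg, hF⟩ := ih _ h3
        exact ⟨g * τ i, mul_mem_ball hg (gen_mem_ball i), hF⟩

/-- a gap bounds the diameter of the Schreier graph -/
lemma trans_of_gap [DecidableEq Y] (hk : 1 ≤ k) (τ : Fin k → Equiv.Perm Y) (ε : ℝ) (hε : ε ≤ 2)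
    (h : Gap τ ε) (t : ℕ) (ht : (1 - ε / 2) ^ t * (Fintype.card Y : ℝ) ^ 2 < 1) (a b : Y) :
    ∃ g ∈ ball τ t, g a = b := by
  have hN : (0 : ℝ) < Fintype.card Y := by
    have : Nonempty Y := ⟨a⟩
    exact_mod_cast Fintype.card_pos
  set N : ℝ := (Fintype.card Y : ℝ) with hNdef
  set F0 : Y → ℝ := fun y => if y = b then 1 else 0 with hF0
  have hs0 : ∑ y, F0 y = 1 := by simp [hF0]
  have hs1 : ∑ y, (F0 y - 1 / N) = 0 := by
    rw [Finset.sum_sub_distrib, hs0, Finset.sum_const, Finset.card_univ, nsmul_eq_mul, ← hNdef]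
    field_simp
    ring
  have hs2 : ∑ y, (F0 y - 1 / N) ^ 2 ≤ 1 := by
    have e1 : ∀ y, (F0 y - 1 / N) ^ 2 = F0 y - (2 / N) * F0 y + (1 / N) ^ 2 := by
      intro y
      simp only [hF0]
      split_ifs <;> ring
    simp_rw [e1]
    rw [Finset.sum_add_distrib, Finset.sum_sub_distrib, ← Finset.mul_sum, hs0, Finset.sum_const,
      Finset.card_univ, nsmul_eq_mul, ← hNdef]
    have : N * (1 / N) ^ 2 = 1 / N := by field_simp
    rw [this]
    have : (0 : ℝ) ≤ 1 / N := by positivity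
    have e2 : 2 / N * 1 = 2 * (1 / N) := by ring
    rw [e2]
    linarith
  by_cases hz : (lz τ)^[t] F0 a = 0
  · exfalso
    have h1 := lz_iter hk τ ε hε h t _ hs1
    rw [lz_iter_sub_const hk] at h1
    have h2 : (1 / N) ^ 2 ≤ ∑ y, ((lz τ)^[t] F0 y - 1 / N) ^ 2 := by
      have := Finset.single_le_sum (s := Finset.univ)
        (f := fun y => ((lz τ)^[t] F0 y - 1 / N) ^ 2) (fun y _ => sq_nonneg _)
        (Finset.mem_univ a)
      simp only [hz] at this
      refine le_trans (le_of_eq ?_) this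
      ring
    have h3 : 0 ≤ (1 - ε / 2) ^ t := pow_nonneg (by linarith) _
    have h4 : (1 / N) ^ 2 ≤ (1 - ε / 2) ^ t := by
      calc (1 / N) ^ 2 ≤ _ := h2
        _ ≤ _ := h1
        _ ≤ (1 - ε / 2) ^ t * 1 := mul_le_mul_of_nonneg_left hs2 h3
        _ = _ := mul_one _
    have h5 : (1 / N) ^ 2 * N ^ 2 ≤ (1 - ε / 2) ^ t * N ^ 2 :=
      mul_le_mul_of_nonneg_right h4 (by positivity)
    have h6 : (1 / N) ^ 2 * N ^ 2 = 1 := by field_simp
    linarith
  · obtain ⟨g, hg, hF⟩ := lz_support τ t F0 a hz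
    refine ⟨g, hg, ?_⟩
    by_contra hne
    exact hF (by simp [hF0, hne])

/-- the starting points from which a set is not reached -/
lemma few_bad (hk : 1 ≤ k) (τ : Fin k → Equiv.Perm Y) (t : ℕ) (C : Finset Y)
    (hC : 0 < C.card) (κ : ℝ) (hκ0 : 0 ≤ κ)
    (hκ : ∑ y, ((lz τ)^[t] (fun y => (Set.indicator (C : Set Y) 1 y : ℝ) -
        C.card / Fintype.card Y) y) ^ 2 ≤
      κ * ∑ y, ((Set.indicator (C : Set Y) 1 y : ℝ) - C.card / Fintype.card Y) ^ 2) :
    ({y : Y | ∀ g ∈ ball τ t, g y ∉ C}.ncard : ℝ) * C.card ≤ κ * (Fintype.card Y : ℝ) ^ 2 := by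
  classical
  have hY : Nonempty Y := by
    obtain ⟨y, _⟩ := Finset.card_pos.1 hC
    exact ⟨y⟩
  have hN : (0 : ℝ) < Fintype.card Y := by exact_mod_cast Fintype.card_pos
  have hC' : (0 : ℝ) < C.card := by exact_mod_cast hC
  set N : ℝ := (Fintype.card Y : ℝ) with hNdef
  set c : ℝ := (C.card : ℝ) with hc
  set F0 : Y → ℝ := fun y => Set.indicator (C : Set Y) 1 y with hF0
  have hF0' : ∀ y, F0 y = if y ∈ C then 1 else 0 := by
    intro y; simp [hF0, Set.indicator_apply]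
  have hs0 : ∑ y, F0 y = c := by
    simp only [hF0', Finset.sum_ite_mem, Finset.univ_inter, Finset.sum_const, nsmul_eq_mul,
      mul_one, hc]
  have hs2 : ∑ y, (F0 y - c / N) ^ 2 ≤ c := by
    have e1 : ∀ y, (F0 y - c / N) ^ 2 = F0 y - (2 * c / N) * F0 y + (c / N) ^ 2 := by
      intro y
      rw [hF0']
      split_ifs <;> ring
    simp_rw [e1]
    rw [Finset.sum_add_distrib, Finset.sum_sub_distrib, ← Finset.mul_sum, hs0, Finset.sum_const,
      Finset.card_univ, nsmul_eq_mul, ← hNdef]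
    have e2 : N * (c / N) ^ 2 = c * (c / N) := by field_simp
    have e3 : 2 * c / N * c = 2 * (c * (c / N)) := by ring
    rw [e2, e3]
    have : 0 ≤ c * (c / N) := by positivity
    linarith
  have h1 : ({y : Y | ∀ g ∈ ball τ t, g y ∉ C}.ncard : ℝ) * (c / N) ^ 2 ≤ κ * c := by
    rw [Set.ncard_eq_toFinset_card']
    rw [lz_iter_sub_const hk] at hκ
    calc (#({y : Y | ∀ g ∈ ball τ t, g y ∉ C}.toFinset) : ℝ) * (c / N) ^ 2
        = ∑ y ∈ {y : Y | ∀ g ∈ ball τ t, g y ∉ C}.toFinset, (c / N) ^ 2 := by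
          rw [Finset.sum_const, nsmul_eq_mul]
      _ = ∑ y ∈ {y : Y | ∀ g ∈ ball τ t, g y ∉ C}.toFinset, ((lz τ)^[t] F0 y - c / N) ^ 2 := by
          refine Finset.sum_congr rfl fun y hy => ?_
          have hy' : ∀ g ∈ ball τ t, g y ∉ C := by simpa using hy
          have : (lz τ)^[t] F0 y = 0 := by
            by_contra hne
            obtain ⟨g, hg, hF⟩ := lz_support τ t F0 y hne
            exact hF (by rw [hF0']; simp [hy' g hg])
          rw [this]; ring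
      _ ≤ ∑ y, ((lz τ)^[t] F0 y - c / N) ^ 2 :=
          Finset.sum_le_sum_of_subset_of_nonneg (Finset.subset_univ _) fun _ _ _ => sq_nonneg _
      _ ≤ κ * ∑ y, (F0 y - c / N) ^ 2 := hκ
      _ ≤ κ * c := mul_le_mul_of_nonneg_left hs2 hκ0
  set B : ℝ := ({y : Y | ∀ g ∈ ball τ t, g y ∉ C}.ncard : ℝ) with hB
  have h2 : B * (c / N) ^ 2 * (N ^ 2 / c) ≤ κ * c * (N ^ 2 / c) :=
    mul_le_mul_of_nonneg_right h1 (by positivity)
  have e1 : B * (c / N) ^ 2 * (N ^ 2 / c) = B * c := by field_simp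
  have e2 : κ * c * (N ^ 2 / c) = κ * N ^ 2 := by field_simp
  rw [e1, e2] at h2
  exact h2

end Mix

end Pool.Agent.L0h8.ND
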