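import Pool.Agent.L0h8.ND.Main

/-!
Equidistribution on the conjugacy classes of `A_n` in logarithmic time.
-/

set_option autoImplicit false
set_option linter.unusedSectionVars false

namespace Pool.Agent.L0h8.ND
open Equiv Finset RC14 Filter Topology
open Pool.Agent.R236.Exc (FewExceptional)

/-- the starting points from which the walk is not equidistributed -/
lemma class_bad {n k : ℕ} (hk : 1 ≤ k) {ε η : ℝ} (hη : 0 ≤ η) (hε : ε ≤ 2) {y : Fin k → Alt n}
    (h : FewExceptional n ε η y) (C : Finset (Alt n)) (hC : 0 < C.card)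
    (hconj : ∀ g h : Alt n, h * g * h⁻¹ ∈ C ↔ g ∈ C) (t : ℕ) (e : ℝ) (he : 0 < e) :
    ((univ.filter fun g : Alt n => e * ((C.card : ℝ) / Fintype.card (Alt n)) <
      |(lz (rmul y))^[t] (Set.indicator (C : Set (Alt n)) 1) g -
        (C.card : ℝ) / Fintype.card (Alt n)|).card : ℝ) ≤
      (η + (1 - ε / 2) ^ (2 * t)) / e ^ 2 * ((Fintype.card (Alt n) : ℝ) / C.card) *
        Fintype.card (Alt n) := by
  classical
  have hN : (0 : ℝ) < Fintype.card (Alt n) := by exact_mod_cast Fintype.card_pos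
  have hC' : (0 : ℝ) < C.card := by exact_mod_cast hC
  set N : ℝ := (Fintype.card (Alt n) : ℝ) with hNdef
  set c : ℝ := (C.card : ℝ) with hc
  set F0 : Alt n → ℝ := Set.indicator (C : Set (Alt n)) 1 with hF0
  have hF0' : ∀ y, F0 y = if y ∈ C then 1 else 0 := by
    intro y; simp [hF0, Set.indicator_apply]
  have hs0 : ∑ y, F0 y = c := by
    simp only [hF0', Finset.sum_ite_mem, Finset.univ_inter, Finset.sum_const, nsmul_eq_mul,
      mul_one, hc]
  have hs2 : ∑ y, (F0 y - c / N) ^ 2 ≤ c := by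
    have e1 : ∀ y, (F0 y - c / N) ^ 2 = F0 y - (2 * c / N) * F0 y + (c / N) ^ 2 := by
      intro y
      rw [hF0']
      split_ifs <;> ring
    simp_rw [e1]
    rw [Finset.sum_add_distrib, Finset.sum_sub_distrib, ← Finset.mul_sum, hs0, Finset.sum_const,
      Finset.card_univ, nsmul_eq_mul, ← hNdef]
    have e2 : N * (c / N) ^ 2 = c * (c / N) := by field_simp
    have e3 : 2 * c / N * c = 2 * (c * (c / N)) := by ring
    rw [e2, e3]
    have : 0 ≤ c * (c / N) := by positivity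
    linarith
  have hκ0 : 0 ≤ η + (1 - ε / 2) ^ (2 * t) := add_nonneg hη (pow_nonneg (by linarith) _)
  have hdec := class_decay hk ε η hε y h (fun g => F0 g - c / N) (by
      intro g u
      have := hconj g u
      simp only [hF0', this]) (by
      rw [Finset.sum_sub_distrib, hs0, Finset.sum_const, Finset.card_univ, nsmul_eq_mul]
      field_simp
      ring) t
  rw [lz_iter_sub_const hk] at hdec
  set κ : ℝ := η + (1 - ε / 2) ^ (2 * t) with hκ
  set B := univ.filter fun g : Alt n => e * (c / N) < |(lz (rmul y))^[t] F0 g - c / N| with hB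
  have h1 : (B.card : ℝ) * (e * (c / N)) ^ 2 ≤ κ * c := by
    calc (B.card : ℝ) * (e * (c / N)) ^ 2 = ∑ g ∈ B, (e * (c / N)) ^ 2 := by
          rw [Finset.sum_const, nsmul_eq_mul]
      _ ≤ ∑ g ∈ B, ((lz (rmul y))^[t] F0 g - c / N) ^ 2 := by
          refine Finset.sum_le_sum fun g hg => ?_
          have h2 : e * (c / N) < |(lz (rmul y))^[t] F0 g - c / N| := (Finset.mem_filter.1 hg).2
          rw [← sq_abs ((lz (rmul y))^[t] F0 g - c / N)]
          exact pow_le_pow_left₀ (by positivity) h2.le 2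
      _ ≤ ∑ g, ((lz (rmul y))^[t] F0 g - c / N) ^ 2 :=
          Finset.sum_le_sum_of_subset_of_nonneg (Finset.subset_univ _) fun _ _ _ => sq_nonneg _
      _ ≤ κ * ∑ g, (F0 g - c / N) ^ 2 := hdec
      _ ≤ κ * c := mul_le_mul_of_nonneg_left hs2 hκ0
  have h2 : (B.card : ℝ) * (e * (c / N)) ^ 2 * (N ^ 2 / (e ^ 2 * c ^ 2)) ≤
      κ * c * (N ^ 2 / (e ^ 2 * c ^ 2)) := mul_le_mul_of_nonneg_right h1 (by positivity)
  have e1 : (B.card : ℝ) * (e * (c / N)) ^ 2 * (N ^ 2 / (e ^ 2 * c ^ 2)) = B.card := by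
    field_simp
  have e2 : κ * c * (N ^ 2 / (e ^ 2 * c ^ 2)) = κ / e ^ 2 * (N / c) * N := by
    field_simp
  rw [e1, e2] at h2
  exact h2

open Classical in
/-- the elements of a conjugacy class -/
noncomputable def cl {n : ℕ} (C : ConjClasses (Alt n)) : Finset (Alt n) :=
  univ.filter fun g => g ∈ C.carrier

lemma cl_conj {n : ℕ} (C : ConjClasses (Alt n)) (g h : Alt n) :
    h * g * h⁻¹ ∈ cl C ↔ g ∈ cl C := by
  simp only [cl, mem_filter, mem_univ, true_and, ConjClasses.mem_carrier_iff_mk_eq]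
  have : ConjClasses.mk (h * g * h⁻¹) = ConjClasses.mk g := by
    rw [ConjClasses.mk_eq_mk_iff_isConj]
    exact (isConj_iff.2 ⟨h, rfl⟩ : IsConj g (h * g * h⁻¹)).symm
  rw [this]

lemma cl_pos {n : ℕ} (C : ConjClasses (Alt n)) : 0 < (cl C).card := by
  obtain ⟨g, hg⟩ := ConjClasses.exists_rep C
  refine Finset.card_pos.2 ⟨g, ?_⟩
  simp only [cl, mem_filter, mem_univ, true_and, ConjClasses.mem_carrier_iff_mk_eq]
  exact hg

open Classical in
lemma sum_cl (n : ℕ) : ∑ C : ConjClasses (Alt n), (cl C).card = Fintype.card (Alt n) := by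
  have h1 := Finset.card_eq_sum_card_fiberwise (f := fun g : Alt n => ConjClasses.mk g)
    (s := (univ : Finset (Alt n))) (t := (univ : Finset (ConjClasses (Alt n))))
    (fun g _ => by simp)
  rw [Finset.card_univ] at h1
  rw [h1]
  refine Finset.sum_congr rfl fun C _ => ?_
  congr 1
  ext g
  simp [cl, ConjClasses.mem_carrier_iff_mk_eq]

/-- the numerical part of the union bound, for one class and one time -/
lemma term_le {ε η X K a N : ℝ} (t : ℕ) (hε : 0 < ε) (hε2 : ε ≤ 2) (hη : 0 ≤ η)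
    (hK : K = 8 / ε) (ha : 1 ≤ a) (hN : 1 ≤ N) (ht : K * (Real.log a + Real.log N) ≤ t) :
    (η + (1 - ε / 2) ^ (2 * t)) / (Real.exp (-(t / K)) + Real.exp (-X)) ^ 2 * a ≤
      η * Real.exp (2 * X) * a + Real.exp (-(ε / 4)) ^ t * (1 / N ^ 2 * (1 / a)) := by
  have ha0 : 0 < a := by linarith
  have hN0 : 0 < N := by linarith
  have hK0 : 0 < K := by rw [hK]; positivity
  have h1 : Real.exp (-X) ^ 2 ≤ (Real.exp (-(t / K)) + Real.exp (-X)) ^ 2 := by
    have := Real.exp_pos (-(t / K)); have := Real.exp_pos (-X)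
    gcongr; linarith
  have h2 : Real.exp (-(t / K)) ^ 2 ≤ (Real.exp (-(t / K)) + Real.exp (-X)) ^ 2 := by
    have := Real.exp_pos (-(t / K)); have := Real.exp_pos (-X)
    gcongr; linarith
  have hth : (1 - ε / 2) ^ (2 * t) ≤ Real.exp (-(ε * t)) := by
    have h3 : 1 - ε / 2 ≤ Real.exp (-(ε / 2)) := by
      have := Real.add_one_le_exp (-(ε / 2)); linarith
    calc (1 - ε / 2) ^ (2 * t) ≤ Real.exp (-(ε / 2)) ^ (2 * t) :=
          pow_le_pow_left₀ (by linarith) h3 _
      _ = Real.exp (-(ε * t)) := by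
          rw [← Real.exp_nat_mul]; congr 1; push_cast; ring
  have hA : η / (Real.exp (-(t / K)) + Real.exp (-X)) ^ 2 ≤ η * Real.exp (2 * X) := by
    rw [div_le_iff₀ (by positivity)]
    calc η = η * (Real.exp (2 * X) * Real.exp (-X) ^ 2) := by
          rw [← Real.exp_nat_mul, ← Real.exp_add]
          have : 2 * X + ((2 : ℕ) : ℝ) * -X = 0 := by push_cast; ring
          rw [this, Real.exp_zero, mul_one]
      _ ≤ η * (Real.exp (2 * X) * (Real.exp (-(t / K)) + Real.exp (-X)) ^ 2) := by gcongr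
      _ = _ := by ring
  have hB : (1 - ε / 2) ^ (2 * t) / (Real.exp (-(t / K)) + Real.exp (-X)) ^ 2 ≤
      Real.exp (-(ε / 4)) ^ t * (1 / N ^ 2 * (1 / a ^ 2)) := by
    rw [div_le_iff₀ (by positivity)]
    have h4 : Real.exp (-(ε * t)) ≤ Real.exp (-(ε / 4)) ^ t * (1 / N ^ 2 * (1 / a ^ 2)) *
        Real.exp (-(t / K)) ^ 2 := by
      have h5 : 1 / N ^ 2 * (1 / a ^ 2) = Real.exp (-(2 * (Real.log a + Real.log N))) := by
        rw [Real.exp_neg, mul_add, Real.exp_add, show 2 * Real.log a = ((2 : ℕ) : ℝ) * Real.log a by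
          push_cast; ring, show 2 * Real.log N = ((2 : ℕ) : ℝ) * Real.log N by push_cast; ring,
          Real.exp_nat_mul, Real.exp_nat_mul, Real.exp_log ha0, Real.exp_log hN0]
        field_simp
      rw [h5, ← Real.exp_nat_mul, ← Real.exp_nat_mul, ← Real.exp_add, ← Real.exp_add]
      apply Real.exp_le_exp.2
      have h6 : t / K = ε * t / 8 := by rw [hK]; field_simp
      have h7 : 2 * (Real.log a + Real.log N) ≤ ε * t / 4 := by
        rw [hK] at ht
        have h8 := mul_le_mul_of_nonneg_left ht (by positivity : 0 ≤ ε / 4)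
        have h9 : ε / 4 * (8 / ε * (Real.log a + Real.log N)) =
            2 * (Real.log a + Real.log N) := by field_simp; ring
        rw [h9] at h8
        linarith
      rw [h6]
      push_cast
      have : 0 ≤ ε * t := by positivity
      linarith
    refine hth.trans (h4.trans ?_)
    gcongr
  rw [add_div, add_mul]
  have h9 : Real.exp (-(ε / 4)) ^ t * (1 / N ^ 2 * (1 / a ^ 2)) * a =
      Real.exp (-(ε / 4)) ^ t * (1 / N ^ 2 * (1 / a)) := by field_simp
  have hA' := mul_le_mul_of_nonneg_right hA ha0.le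
  have hB' := mul_le_mul_of_nonneg_right hB ha0.le
  rw [h9] at hB'
  linarith

/-- equidistribution on the classes -/
def Equid (n : ℕ) (X K : ℝ) {k : ℕ} (y : Fin k → Alt n) (g : Alt n) : Prop :=
  ∀ C : ConjClasses (Alt n), Real.exp (-X) * Fintype.card (Alt n) ≤ (cl C).card →
    ∀ t : ℕ, K * (Real.log ((Fintype.card (Alt n) : ℝ) / (cl C).card) + Real.log n) ≤ t →
      (t : ℝ) ≤ Real.exp X →
      |(lz (rmul y))^[t] (Set.indicator (cl C : Set (Alt n)) 1) g -
        ((cl C).card : ℝ) / Fintype.card (Alt n)| ≤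
        (Real.exp (-(t / K)) + Real.exp (-X)) * (((cl C).card : ℝ) / Fintype.card (Alt n))

/-- few first generators are bad -/
lemma equid_bad {n k : ℕ} (hk : 1 ≤ k) (hn : 1 ≤ n) {ε η X : ℝ} (hη : 0 ≤ η) (hε0 : 0 < ε)
    (hε : ε ≤ 2) (hX : 0 ≤ X) {y : Fin k → Alt n} (h : FewExceptional n ε η y) :
    (Nat.card {g : Alt n // ¬ Equid n X (8 / ε) y g} : ℝ) ≤
      (2 * η * Real.exp (5 * X) + (1 - Real.exp (-(ε / 4)))⁻¹ / (n : ℝ) ^ 2) *
        Fintype.card (Alt n) := by
  classical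
  set K : ℝ := 8 / ε with hK
  set N : ℝ := (Fintype.card (Alt n) : ℝ) with hNdef
  have hN : (0 : ℝ) < N := by
    have : 0 < Fintype.card (Alt n) := Fintype.card_pos
    rw [hNdef]; exact_mod_cast this
  set S : Finset (ConjClasses (Alt n)) :=
    univ.filter fun C => Real.exp (-X) * N ≤ ((cl C).card : ℝ) with hS
  set M : ℕ := ⌊Real.exp X⌋₊ + 1 with hM
  set er : ℕ → ℝ := fun t => Real.exp (-(t / K)) + Real.exp (-X) with her
  have her0 : ∀ t, 0 < er t := fun t => by simp only [her]; positivity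
  set Tm : ConjClasses (Alt n) → Finset ℕ := fun C =>
    (range M).filter fun t => K * (Real.log (N / (cl C).card) + Real.log n) ≤ (t : ℝ) with hTm
  set B : ConjClasses (Alt n) → ℕ → Finset (Alt n) := fun C t =>
    univ.filter fun g : Alt n => er t * (((cl C).card : ℝ) / N) <
      |(lz (rmul y))^[t] (Set.indicator (cl C : Set (Alt n)) 1) g - ((cl C).card : ℝ) / N| with hB
  have hsub : Nat.card {g : Alt n // ¬ Equid n X K y g} ≤
      (S.biUnion fun C => (Tm C).biUnion fun t => B C t).card := by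
    rw [Nat.card_eq_fintype_card, Fintype.card_subtype]
    refine card_le_card fun g hg => ?_
    have hg' : ¬ Equid n X K y g := (mem_filter.1 hg).2
    unfold Equid at hg'
    push Not at hg'
    obtain ⟨C, h1, t, h2, h3, h4⟩ := hg'
    refine mem_biUnion.2 ⟨C, ?_, mem_biUnion.2 ⟨t, ?_, ?_⟩⟩
    · simp only [hS, mem_filter, mem_univ, true_and]; exact h1
    · simp only [hTm, mem_filter, mem_range]
      refine ⟨?_, h2⟩
      have : t ≤ ⌊Real.exp X⌋₊ := Nat.le_floor h3
      omega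
    · simp only [hB, mem_filter, mem_univ, true_and]; exact h4
  have hcp : ∀ C : ConjClasses (Alt n), (0 : ℝ) < (cl C).card := fun C => by
    exact_mod_cast cl_pos C
  have hcN : ∀ C : ConjClasses (Alt n), ((cl C).card : ℝ) ≤ N := fun C => by
    rw [hNdef]; exact_mod_cast card_le_univ _
  have ha1 : ∀ C : ConjClasses (Alt n), 1 ≤ N / (cl C).card := fun C => by
    rw [le_div_iff₀ (hcp C), one_mul]; exact hcN C
  set r : ℝ := Real.exp (-(ε / 4)) with hr
  have hr0 : 0 < r := Real.exp_pos _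
  have hr1 : r < 1 := by rw [hr, Real.exp_lt_one_iff]; linarith
  have hn1 : (1 : ℝ) ≤ n := by exact_mod_cast hn
  have hterm : ∀ C, ∀ t ∈ Tm C, ((B C t).card : ℝ) ≤
      (η * Real.exp (2 * X) * (N / (cl C).card) + r ^ t * (1 / (n : ℝ) ^ 2 * ((cl C).card / N))) *
        N := by
    intro C t ht
    have ht' := (mem_filter.1 ht).2
    have h1 := class_bad hk hη hε h (cl C) (cl_pos C) (cl_conj C) t (er t) (her0 t)
    refine h1.trans ?_
    have h2 := term_le (X := X) t hε0 hε hη hK (ha1 C) hn1 ht'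
    rw [one_div_div] at h2
    exact mul_le_mul_of_nonneg_right h2 hN.le
  have hgeo : ∀ s : Finset ℕ, ∑ t ∈ s, r ^ t ≤ (1 - r)⁻¹ := by
    intro s
    rw [← tsum_geometric_of_lt_one hr0.le hr1]
    exact (summable_geometric_of_lt_one hr0.le hr1).sum_le_tsum s fun t _ => by positivity
  have hMle : (M : ℝ) ≤ 2 * Real.exp X := by
    rw [hM]
    push_cast
    have h1 := Nat.floor_le (Real.exp_pos X).le
    have h2 : 1 ≤ Real.exp X := Real.one_le_exp hX
    linarith
  have hSN : ∀ C ∈ S, N / (cl C).card ≤ Real.exp X := by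
    intro C hC
    have h1 : Real.exp (-X) * N ≤ ((cl C).card : ℝ) := (mem_filter.1 hC).2
    rw [div_le_iff₀ (hcp C)]
    calc N = Real.exp X * (Real.exp (-X) * N) := by
          rw [← mul_assoc, ← Real.exp_add, add_neg_cancel, Real.exp_zero, one_mul]
      _ ≤ _ := mul_le_mul_of_nonneg_left h1 (Real.exp_pos _).le
  have hsumS : ∑ C ∈ S, ((cl C).card : ℝ) ≤ N := by
    rw [hNdef, ← sum_cl n]
    push_cast
    exact sum_le_sum_of_subset_of_nonneg (subset_univ _) fun _ _ _ => by positivity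
  have hScard : (S.card : ℝ) ≤ Real.exp X := by
    have h1 : (S.card : ℝ) * (Real.exp (-X) * N) ≤ N := by
      refine le_trans ?_ hsumS
      rw [← nsmul_eq_mul]
      exact card_nsmul_le_sum _ _ _ fun C hC => (mem_filter.1 hC).2
    have h2 : (S.card : ℝ) * Real.exp (-X) ≤ 1 := by
      have : (S.card : ℝ) * Real.exp (-X) * N ≤ 1 * N := by
        rw [one_mul, mul_assoc]; exact h1
      exact le_of_mul_le_mul_right this hN
    calc (S.card : ℝ) = S.card * Real.exp (-X) * Real.exp X := by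
          rw [mul_assoc, ← Real.exp_add, neg_add_cancel, Real.exp_zero, mul_one]
      _ ≤ 1 * Real.exp X := mul_le_mul_of_nonneg_right h2 (Real.exp_pos _).le
      _ = _ := one_mul _
  have hC1 : ∀ C ∈ S, ∑ t ∈ Tm C, ((B C t).card : ℝ) ≤
      (2 * η * Real.exp (4 * X) + (1 - r)⁻¹ / (n : ℝ) ^ 2 * ((cl C).card / N)) * N := by
    intro C hC
    calc ∑ t ∈ Tm C, ((B C t).card : ℝ)
        ≤ ∑ t ∈ Tm C, (η * Real.exp (2 * X) * (N / (cl C).card) +
            r ^ t * (1 / (n : ℝ) ^ 2 * ((cl C).card / N))) * N :=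
          sum_le_sum fun t ht => hterm C t ht
      _ = ((Tm C).card * (η * Real.exp (2 * X) * (N / (cl C).card)) +
            (∑ t ∈ Tm C, r ^ t) * (1 / (n : ℝ) ^ 2 * ((cl C).card / N))) * N := by
          rw [← sum_mul, sum_add_distrib, sum_const, nsmul_eq_mul, sum_mul]
      _ ≤ ((2 * Real.exp X) * (η * Real.exp (2 * X) * Real.exp X) +
            (1 - r)⁻¹ * (1 / (n : ℝ) ^ 2 * ((cl C).card / N))) * N := by
          have h1 : ((Tm C).card : ℝ) ≤ 2 * Real.exp X := by
            refine le_trans ?_ hMle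
            have : (Tm C).card ≤ M := by
              refine (card_filter_le _ _).trans ?_
              rw [card_range]
            exact_mod_cast this
          have h2 := hSN C hC
          have h3 := hgeo (Tm C)
          have h4 : 0 ≤ N / (cl C).card := by have := hcp C; positivity
          have h5 : 0 ≤ (1 / (n : ℝ) ^ 2 * ((cl C).card / N)) := by have := hcp C; positivity
          gcongr
      _ = _ := by
          have : Real.exp (4 * X) = Real.exp X * Real.exp (2 * X) * Real.exp X := by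
            rw [← Real.exp_add, ← Real.exp_add]; congr 1; ring
          rw [this]; ring
  have hr1' : 0 ≤ (1 - r)⁻¹ := inv_nonneg.2 (by linarith)
  calc (Nat.card {g : Alt n // ¬ Equid n X K y g} : ℝ)
      ≤ ((S.biUnion fun C => (Tm C).biUnion fun t => B C t).card : ℝ) := by exact_mod_cast hsub
    _ ≤ ∑ C ∈ S, ∑ t ∈ Tm C, ((B C t).card : ℝ) := by
        have h1 : (S.biUnion fun C => (Tm C).biUnion fun t => B C t).card ≤
            ∑ C ∈ S, ∑ t ∈ Tm C, (B C t).card :=
          card_biUnion_le.trans (sum_le_sum fun C _ => card_biUnion_le)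
        exact_mod_cast h1
    _ ≤ ∑ C ∈ S, (2 * η * Real.exp (4 * X) + (1 - r)⁻¹ / (n : ℝ) ^ 2 * ((cl C).card / N)) * N :=
        sum_le_sum hC1
    _ = (S.card * (2 * η * Real.exp (4 * X)) +
          (1 - r)⁻¹ / (n : ℝ) ^ 2 * ((∑ C ∈ S, ((cl C).card : ℝ)) / N)) * N := by
        rw [← sum_mul, sum_add_distrib, sum_const, nsmul_eq_mul, ← mul_sum, sum_div]
    _ ≤ (Real.exp X * (2 * η * Real.exp (4 * X)) + (1 - r)⁻¹ / (n : ℝ) ^ 2 * 1) * N := by
        have h1 : (∑ C ∈ S, ((cl C).card : ℝ)) / N ≤ 1 := by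
          rw [div_le_one hN]; exact hsumS
        gcongr
    _ = _ := by
        have : Real.exp (5 * X) = Real.exp X * Real.exp (4 * X) := by
          rw [← Real.exp_add]; congr 1; ring
        rw [this]; ring

/-- **equidistribution on the conjugacy classes** -/
theorem classes (δ : ℝ) (hδ : 0 < δ) (hδ1 : δ ≤ 1) : ∃ k₀ : ℕ, ∀ k ≥ k₀, ∃ K : ℝ, 0 < K ∧
    ∀ ε₀ : ℝ, 0 < ε₀ → ∀ᶠ n : ℕ in atTop,
      (Nat.card {x : Fin (k + 1) → Alt n //
        ¬ Equid n ((n : ℝ) ^ (1 - δ)) K (Fin.tail x) (x 0)} : ℝ) ≤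
        ε₀ * (Fintype.card (Alt n) : ℝ) ^ (k + 1) := by
  set d : ℝ := δ / 8 with hd'
  have hd : 0 < d := by positivity
  have hd1 : d ≤ 1 / 8 := by rw [hd']; linarith
  obtain ⟨k0, hk0⟩ := TE852.GAPE (1 - d) (TE852.TEMAIN (1 - d) (by linarith))
  refine ⟨k0 + 1, fun k hk' => ?_⟩
  obtain ⟨c', hc', B, hB, hgap⟩ := hk0 k (by omega)
  have hk1 : 1 ≤ k := by omega
  have hkpos : (0 : ℝ) < k := by exact_mod_cast hk1
  have hk1r : (1 : ℝ) ≤ k := by exact_mod_cast hk1
  set c : ℝ := min c' 1 with hcdef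
  have hc : 0 < c := lt_min hc' one_pos
  have hc1 : c ≤ 1 := min_le_right _ _
  have hcc : ∀ (n : ℕ) (x : Fin k → Alt n), Good1 n (TE852.Rr (1 - d) n) c' x →
      Good1 n (TE852.Rr (1 - d) n) c x := by
    intro n x hx j h1 h2 v hv
    refine le_trans ?_ (hx j h1 h2 v hv)
    have : c ≤ c' := min_le_left _ _
    gcongr
  set ε : ℝ := c / (100 * k) with hεdef
  have hε2 : 0 < ε := by positivity
  have hε2' : ε ≤ 2 := by
    rw [hεdef, div_le_iff₀ (by positivity)]; nlinarith
  refine ⟨8 / ε, by positivity, fun ε₀ hε₀ => ?_⟩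
  have hlim : ∀ᶠ n : ℕ in atTop, 2 * Real.exp (-(n : ℝ) ^ (1 - 4 * d)) *
      Real.exp (5 * (n : ℝ) ^ (1 - δ)) ≤ ε₀ / 4 := by
    filter_upwards [ev_le (1 - δ) (1 - δ / 2) 10 (by linarith),
      ev_const (1 - δ / 2) (2 * Real.log (8 / ε₀)) (by linarith)] with n h1 h2
    have h3 : 1 - 4 * d = 1 - δ / 2 := by rw [hd']; ring
    rw [h3, mul_assoc, ← Real.exp_add]
    have h4 : -(n : ℝ) ^ (1 - δ / 2) + 5 * (n : ℝ) ^ (1 - δ) ≤ -Real.log (8 / ε₀) := by linarith
    calc 2 * Real.exp (-(n : ℝ) ^ (1 - δ / 2) + 5 * (n : ℝ) ^ (1 - δ))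
        ≤ 2 * Real.exp (-Real.log (8 / ε₀)) := by gcongr
      _ = ε₀ / 4 := by
        rw [Real.exp_neg, Real.exp_log (by positivity), inv_div]; ring
  set Cr : ℝ := (1 - Real.exp (-(ε / 4)))⁻¹ with hCr
  have hCr0 : 0 ≤ Cr := by
    rw [hCr, inv_nonneg, sub_nonneg, Real.exp_le_one_iff]; linarith
  filter_upwards [hgap, few_of_good1 d hd hd1 k hk1 c hc hc1, hlim,
    ev_const 1 (2 * B / ε₀) one_pos, ev_const 1 (4 * Cr / ε₀) one_pos,
    eventually_ge_atTop 1] with n h1 h3 hl h5 h5' h6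
  rw [Real.rpow_one, div_le_iff₀ hε₀] at h5 h5'
  have hn : (0 : ℝ) < n := by exact_mod_cast h6
  have hn1 : (1 : ℝ) ≤ n := by exact_mod_cast h6
  set P : (Fin k → Alt n) → Prop := fun y => Good1 n (TE852.Rr (1 - d) n) c' y with hP
  set Bad : (Fin k → Alt n) → Alt n → Prop := fun y g =>
    ¬ Equid n ((n : ℝ) ^ (1 - δ)) (8 / ε) y g with hBad
  have hbad : ∀ y, P y → (Nat.card {g : Alt n // Bad y g} : ℝ) ≤
      (ε₀ / 2) * Fintype.card (Alt n) := by
    intro y hy
    have hfew := h3 y (hcc n y hy)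
    have h7 := equid_bad (X := (n : ℝ) ^ (1 - δ)) hk1 h6 (Real.exp_pos _).le hε2 hε2'
      (by positivity) hfew
    refine h7.trans ?_
    have h8 : Cr / (n : ℝ) ^ 2 ≤ ε₀ / 4 := by
      rw [div_le_iff₀ (by positivity)]
      have : (n : ℝ) ≤ (n : ℝ) ^ 2 := by nlinarith
      nlinarith
    gcongr
    linarith
  have hprod := card_prod_bound P Bad (ε₀ / 2) (by positivity) hbad
  have hequiv : Nat.card {x : Fin (k + 1) → Alt n //
      ¬ Equid n ((n : ℝ) ^ (1 - δ)) (8 / ε) (Fin.tail x) (x 0)} =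
      Nat.card {p : (Fin k → Alt n) × Alt n // Bad p.1 p.2} := by
    let e : (Fin k → Alt n) × Alt n ≃ (Fin (k + 1) → Alt n) :=
      (Equiv.prodComm _ _).trans (Fin.consEquiv (fun _ : Fin (k + 1) => Alt n))
    refine (RC14.card_equiv e (fun p => Bad p.1 p.2) _ fun p => ?_).symm
    rfl
  rw [hequiv]
  refine hprod.trans ?_
  have hcardF : (Fintype.card (Fin k → Alt n) : ℝ) = (Fintype.card (Alt n) : ℝ) ^ k := by
    rw [Fintype.card_fun, Fintype.card_fin]; push_cast; rfl
  rw [hcardF]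
  have hA : (0 : ℝ) < Fintype.card (Alt n) := by exact_mod_cast Fintype.card_pos
  have h9 : B / n ≤ ε₀ / 2 := by
    rw [div_le_iff₀ hn]; linarith
  calc (Nat.card {x : Fin k → Alt n // ¬ P x} : ℝ) * Fintype.card (Alt n) +
        ε₀ / 2 * (Fintype.card (Alt n) : ℝ) ^ k * Fintype.card (Alt n)
      ≤ (B / n * (Fintype.card (Alt n) : ℝ) ^ k) * Fintype.card (Alt n) +
        ε₀ / 2 * (Fintype.card (Alt n) : ℝ) ^ k * Fintype.card (Alt n) := by gcongr
    _ ≤ (ε₀ / 2 * (Fintype.card (Alt n) : ℝ) ^ k) * Fintype.card (Alt n) +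
        ε₀ / 2 * (Fintype.card (Alt n) : ℝ) ^ k * Fintype.card (Alt n) := by gcongr
    _ = ε₀ * (Fintype.card (Alt n) : ℝ) ^ (k + 1) := by ring

end Pool.Agent.L0h8.ND
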