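import Mathlib

/-!
Factorization of even permutations into few `s`-cycles.
-/

set_option autoImplicit false
set_option linter.unusedSectionVars false

namespace Pool.Agent.L0h8.ND
open Equiv Equiv.Perm Finset

section General
variable {α : Type*} [Fintype α] [DecidableEq α]

lemma inv_self_apply {β : Type*} (σ : Perm β) (x : β) : σ⁻¹ (σ x) = x := σ.symm_apply_apply x

lemma self_inv_apply {β : Type*} (σ : Perm β) (x : β) : σ (σ⁻¹ x) = x := σ.apply_symm_apply x

/-- `z` is an `s`-cycle -/
def IsS (s : ℕ) (z : Perm α) : Prop := z.IsCycle ∧ z.support.card = s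

lemma IsS.conj {s : ℕ} {z : Perm α} (h : IsS s z) (σ : Perm α) : IsS s (σ * z * σ⁻¹) :=
  ⟨h.1.conj, by rw [card_support_conj, h.2]⟩

lemma IsS.inv {s : ℕ} {z : Perm α} (h : IsS s z) : IsS s z⁻¹ :=
  ⟨h.1.inv, by rw [support_inv, h.2]⟩

/-- products of at most `K` `s`-cycles -/
def PS (s K : ℕ) (g : Perm α) : Prop :=
  ∃ l : List (Perm α), l.length ≤ K ∧ (∀ z ∈ l, IsS s z) ∧ l.prod = g

lemma PS.one {s : ℕ} : PS s 0 (1 : Perm α) := ⟨[], by simp, by simp, by simp⟩

lemma PS.mono {s K K' : ℕ} {g : Perm α} (h : PS s K g) (hK : K ≤ K') : PS s K' g := by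
  obtain ⟨l, h1, h2, h3⟩ := h
  exact ⟨l, h1.trans hK, h2, h3⟩

lemma PS.mul {s K K' : ℕ} {g g' : Perm α} (h : PS s K g) (h' : PS s K' g') :
    PS s (K + K') (g * g') := by
  obtain ⟨l, h1, h2, h3⟩ := h
  obtain ⟨l', h1', h2', h3'⟩ := h'
  refine ⟨l ++ l', by simp; omega, ?_, by simp [h3, h3']⟩
  intro z hz
  rcases List.mem_append.1 hz with hz | hz
  · exact h2 z hz
  · exact h2' z hz

/-- a partial injection extends to a permutation -/
lemma exists_perm {ι : Type*} (f g : ι → α) (hf : Function.Injective f)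
    (hg : Function.Injective g) : ∃ σ : Perm α, ∀ i, σ (f i) = g i := by
  classical
  have hι : Finite ι := Finite.of_injective f hf
  let e : {x // x ∈ Set.range f} ≃ {x // x ∈ Set.range g} :=
    (Equiv.ofInjective f hf).symm.trans (Equiv.ofInjective g hg)
  refine ⟨e.extendSubtype, fun i => ?_⟩
  rw [Equiv.extendSubtype_apply_of_mem e (f i) ⟨i, rfl⟩]
  have : (Equiv.ofInjective f hf).symm ⟨f i, ⟨i, rfl⟩⟩ = i := by
    rw [Equiv.symm_apply_eq]; rfl
  simp only [e, Equiv.trans_apply]
  rw [this]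
  rfl

/-- an `s`-cycle with prescribed values on a matching -/
lemma exists_match {s j : ℕ} {z0 : Perm α} (h0 : IsS s z0) (hj : 2 * j ≤ s)
    (q c : Fin j → α) (hq : Function.Injective (Sum.elim q c)) :
    ∃ z : Perm α, IsS s z ∧ ∀ i, z (q i) = c i := by
  obtain ⟨x0, hx0, -⟩ := h0.1
  have ho : orderOf z0 = s := by rw [h0.1.orderOf, h0.2]
  set f : Fin j ⊕ Fin j → α := Sum.elim (fun i => (z0 ^ (2 * (i : ℕ))) x0)
    (fun i => (z0 ^ (2 * (i : ℕ) + 1)) x0) with hf
  have key : ∀ a b : ℕ, a < s → b < s → (z0 ^ a) x0 = (z0 ^ b) x0 → a = b := by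
    intro a b ha hb hab
    have h1 : z0 ^ a = z0 ^ b := h0.1.pow_eq_pow_iff.2 ⟨x0, hx0, hab⟩
    exact pow_injOn_Iio_orderOf (by rw [Set.mem_Iio, ho]; exact ha)
      (by rw [Set.mem_Iio, ho]; exact hb) h1
  have hinj : Function.Injective f := by
    rintro (a | a) (b | b) hab
    · have := key _ _ (by have := a.2; omega) (by have := b.2; omega) hab
      congr 1; ext; omega
    · have := key _ _ (by have := a.2; omega) (by have := b.2; omega) hab
      omega
    · have := key _ _ (by have := a.2; omega) (by have := b.2; omega) hab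
      omega
    · have := key _ _ (by have := a.2; omega) (by have := b.2; omega) hab
      congr 1; ext; omega
  obtain ⟨σ, hσ⟩ := exists_perm f (Sum.elim q c) hinj hq
  refine ⟨σ * z0 * σ⁻¹, h0.conj σ, fun i => ?_⟩
  have h1 : σ ((z0 ^ (2 * (i : ℕ))) x0) = q i := hσ (Sum.inl i)
  have h2 : σ ((z0 ^ (2 * (i : ℕ) + 1)) x0) = c i := hσ (Sum.inr i)
  rw [← h1, mul_apply, mul_apply, inv_self_apply, ← h2, pow_succ', mul_apply]

/-- the version for arbitrary finite index types -/
lemma exists_match' {ι : Type*} [Fintype ι] {s : ℕ} {z0 : Perm α} (h0 : IsS s z0)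
    (hj : 2 * Fintype.card ι ≤ s) (q c : ι → α) (hq : Function.Injective (Sum.elim q c)) :
    ∃ z : Perm α, IsS s z ∧ ∀ i, z (q i) = c i := by
  let e := Fintype.equivFin ι
  obtain ⟨z, hz, h⟩ := exists_match h0 hj (q ∘ e.symm) (c ∘ e.symm) (by
    have h1 : Sum.elim (q ∘ e.symm) (c ∘ e.symm) =
        Sum.elim q c ∘ (Equiv.sumCongr e e).symm := by
      ext (i | i) <;> rfl
    rw [h1]
    exact hq.comp (Equiv.injective _))
  exact ⟨z, hz, fun i => by simpa using h (e i)⟩

/-- every permutation is the product of two involutions -/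
lemma exists_involutions (σ : Perm α) : ∃ a b : Perm α, a * a = 1 ∧ b * b = 1 ∧ a * b = σ := by
  classical
  let st : Setoid α := SameCycle.setoid σ
  let r : α → α := fun x => (Quotient.mk st x).out
  have hr : ∀ x, SameCycle σ (r x) x := fun x => Quotient.mk_out (s := st) x
  choose i hi using hr
  have hrr : ∀ x y, SameCycle σ x y → r x = r y := by
    intro x y h
    have : Quotient.mk st x = Quotient.mk st y := Quotient.sound h
    simp only [r, this]
  let f : α → α := fun x => (σ ^ (-(i x))) (r x)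
  have hfr : ∀ (x : α) (m : ℤ), f ((σ ^ m) (r x)) = (σ ^ (-m)) (r x) := by
    intro x m
    set y := (σ ^ m) (r x) with hy
    have h1 : r y = r x := by
      have h2 : SameCycle σ x y := by
        have h3 : SameCycle σ (r x) y := ⟨m, rfl⟩
        have h4 : SameCycle σ (r x) x := ⟨i x, hi x⟩
        exact h4.symm.trans h3
      exact (hrr x y h2).symm
    have h2 : (σ ^ (i y)) (r x) = (σ ^ m) (r x) := by
      rw [← hy, ← h1, hi]
    change (σ ^ (-(i y))) (r y) = _
    rw [h1]
    have h3 : (σ ^ (-(i y))) ((σ ^ (i y)) ((σ ^ (-m)) (r x))) =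
        (σ ^ (-(i y))) ((σ ^ (m)) ((σ ^ (-m)) (r x))) := by
      congr 1
      rw [← mul_apply, ← mul_apply, ← zpow_add, ← zpow_add, add_comm, add_comm m, zpow_add,
        zpow_add, mul_apply, mul_apply, h2]
    have h4 : (σ ^ (-(i y))) ((σ ^ (i y)) ((σ ^ (-m)) (r x))) = (σ ^ (-m)) (r x) := by
      rw [← mul_apply, ← zpow_add]; simp
    have h5 : (σ ^ (-(i y))) ((σ ^ (m)) ((σ ^ (-m)) (r x))) = (σ ^ (-(i y))) (r x) := by
      congr 1
      rw [← mul_apply, ← zpow_add]; simp
    rw [← h5, ← h3, h4]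
  have hfi : ∀ x, f x = (σ ^ (-(i x))) (r x) := fun _ => rfl
  have hff : ∀ x, f (f x) = x := by
    intro x
    rw [hfi x, hfr, neg_neg, hi]
  have hfσ : ∀ x, f (σ x) = σ⁻¹ (f x) := by
    intro x
    have h1 : σ x = (σ ^ (1 + i x)) (r x) := by
      rw [zpow_add, mul_apply, hi, zpow_one]
    rw [h1, hfr, hfi, ← mul_apply]
    congr 1
    rw [neg_add, zpow_add, zpow_neg_one]
  have hinv : Function.Involutive f := hff
  let a : Perm α := hinv.toPerm f
  have ha : ∀ x, a x = f x := fun _ => rfl
  have haa : a * a = 1 := by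
    ext x; simp [ha, hff]
  refine ⟨a, a * σ, haa, ?_, ?_⟩
  · ext x
    simp only [mul_apply, ha, one_apply]
    rw [hfσ, hff]
    simp
  · rw [← mul_assoc, haa, one_mul]

/-- restriction of a permutation to an invariant set -/
def rst (y : Perm α) (S : Finset α) (hS : ∀ x, x ∈ S ↔ y x ∈ S) : Perm α :=
  ofSubtype (y.subtypePerm (p := fun x => x ∈ S) (fun x => (hS x).symm))

lemma rst_mem {y : Perm α} {S : Finset α} {hS : ∀ x, x ∈ S ↔ y x ∈ S} {x : α} (hx : x ∈ S) :
    rst y S hS x = y x := by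
  unfold rst
  rw [ofSubtype_apply_of_mem _ hx]
  rfl

lemma rst_notMem {y : Perm α} {S : Finset α} {hS : ∀ x, x ∈ S ↔ y x ∈ S} {x : α} (hx : x ∉ S) :
    rst y S hS x = x := by
  unfold rst
  rw [ofSubtype_apply_of_not_mem _ hx]

lemma rst_inv {y : Perm α} {S : Finset α} {hS : ∀ x, x ∈ S ↔ y x ∈ S} (hy : y * y = 1) :
    rst y S hS * rst y S hS = 1 := by
  ext x
  have hyy : ∀ x, y (y x) = x := fun x => by rw [← mul_apply, hy]; rfl
  by_cases hx : x ∈ S
  · rw [mul_apply, rst_mem hx, rst_mem ((hS x).1 hx), hyy]; rfl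
  · rw [mul_apply, rst_notMem hx, rst_notMem hx]; rfl

end General

section Ordered
variable {n : ℕ}

/-- the lower ends of the transpositions of the involution `y` -/
def low (y : Perm (Fin n)) : Finset (Fin n) := univ.filter fun p => p < y p

lemma mem_low {y : Perm (Fin n)} {p : Fin n} : p ∈ low y ↔ p < y p := by simp [low]

/-- the union of a set of lower ends with its image -/
def dbl (y : Perm (Fin n)) (P : Finset (Fin n)) : Finset (Fin n) := P ∪ P.image y

lemma dbl_inv {y : Perm (Fin n)} (hy : y * y = 1) (P : Finset (Fin n)) (x : Fin n) :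
    x ∈ dbl y P ↔ y x ∈ dbl y P := by
  have hyy : ∀ x, y (y x) = x := fun x => by rw [← mul_apply, hy]; rfl
  have key : ∀ x, x ∈ dbl y P → y x ∈ dbl y P := by
    intro x hx
    simp only [dbl, mem_union, mem_image] at hx ⊢
    rcases hx with h | ⟨a, ha, rfl⟩
    · exact Or.inr ⟨x, h, rfl⟩
    · left; rwa [hyy]
  refine ⟨key x, fun h => ?_⟩
  have := key _ h
  rwa [hyy] at this

lemma mem_dbl {y : Perm (Fin n)} (hy : y * y = 1) {P : Finset (Fin n)} {x : Fin n} :
    x ∈ dbl y P ↔ x ∈ P ∨ y x ∈ P := by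
  have hyy : ∀ x, y (y x) = x := fun x => by rw [← mul_apply, hy]; rfl
  simp only [dbl, mem_union, mem_image]
  constructor
  · rintro (h | ⟨a, ha, rfl⟩)
    · exact Or.inl h
    · right; rwa [hyy]
  · rintro (h | h)
    · exact Or.inl h
    · exact Or.inr ⟨y x, h, hyy x⟩

lemma image_disj {y : Perm (Fin n)} (hy : y * y = 1) {P : Finset (Fin n)} (hP : P ⊆ low y)
    {a b : Fin n} (ha : a ∈ P) (hb : b ∈ P) : a ≠ y b := by
  have hyy : ∀ x, y (y x) = x := fun x => by rw [← mul_apply, hy]; rfl
  rintro rfl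
  have h1 := mem_low.1 (hP ha)
  have h2 := mem_low.1 (hP hb)
  rw [hyy] at h1
  exact absurd h1 (not_lt.2 h2.le)

lemma card_dbl {y : Perm (Fin n)} (hy : y * y = 1) {P : Finset (Fin n)} (hP : P ⊆ low y) :
    (dbl y P).card = 2 * P.card := by
  rw [dbl, card_union_of_disjoint, card_image_of_injective _ y.injective]
  · ring
  · rw [disjoint_left]
    intro a ha hb
    obtain ⟨b, hb, hba⟩ := mem_image.1 hb
    exact image_disj hy hP ha hb hba.symm

lemma support_eq_dbl {y : Perm (Fin n)} (hy : y * y = 1) : y.support = dbl y (low y) := by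
  have hyy : ∀ x, y (y x) = x := fun x => by rw [← mul_apply, hy]; rfl
  ext x
  rw [mem_support, mem_dbl hy, mem_low, mem_low, hyy]
  exact ne_comm.trans ne_iff_lt_or_gt

lemma card_support_inv {y : Perm (Fin n)} (hy : y * y = 1) :
    y.support.card = 2 * (low y).card := by
  rw [support_eq_dbl hy, card_dbl hy subset_rfl]

/-- a block: an involution which consists of `2 r` transpositions, `4 r ≤ s`, is the product of two
`s`-cycles -/
lemma block {s r : ℕ} {z0 : Perm (Fin n)} (h0 : IsS s z0) (hr : 4 * r ≤ s) (y : Perm (Fin n))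
    (hy : y * y = 1) (hc : (low y).card = 2 * r) : PS s 2 y := by
  have hyy : ∀ x, y (y x) = x := fun x => by rw [← mul_apply, hy]; rfl
  obtain ⟨P1, hP1, hc1⟩ := exists_subset_card_eq (s := low y) (n := r) (by omega)
  set P2 := low y \ P1 with hP2
  have hP2s : P2 ⊆ low y := sdiff_subset
  have hc2 : P2.card = r := by
    rw [hP2, card_sdiff_of_subset hP1]; omega
  have hdis : ∀ a ∈ P1, a ∉ P2 := fun a ha h => (mem_sdiff.1 h).2 ha
  have e1 := P1.equivFinOfCardEq hc1
  have e2 := P2.equivFinOfCardEq hc2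
  let p1 : Fin r → Fin n := fun i => (e1.symm i : P1)
  let p2 : Fin r → Fin n := fun i => (e2.symm i : P2)
  have hp1 : ∀ i, p1 i ∈ P1 := fun i => (e1.symm i).2
  have hp2 : ∀ i, p2 i ∈ P2 := fun i => (e2.symm i).2
  have hi1 : Function.Injective p1 := Subtype.val_injective.comp e1.symm.injective
  have hi2 : Function.Injective p2 := Subtype.val_injective.comp e2.symm.injective
  have hs1 : ∀ a ∈ P1, ∃ i, p1 i = a := fun a ha => ⟨e1 ⟨a, ha⟩, by simp [p1]⟩
  have hs2 : ∀ a ∈ P2, ∃ i, p2 i = a := fun a ha => ⟨e2 ⟨a, ha⟩, by simp [p2]⟩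
  have hne12 : ∀ i j, p1 i ≠ p2 j := fun i j h => hdis _ (hp1 i) (h ▸ hp2 j)
  have hneL : ∀ a b : Fin n, a ∈ low y → b ∈ low y → a ≠ y b := fun a b ha hb =>
    image_disj hy subset_rfl ha hb
  have l1 : ∀ i, p1 i ∈ low y := fun i => hP1 (hp1 i)
  have l2 : ∀ i, p2 i ∈ low y := fun i => hP2s (hp2 i)
  let q : Fin r ⊕ Fin r → Fin n := Sum.elim p1 (fun i => y (p1 i))
  let c : Fin r ⊕ Fin r → Fin n := Sum.elim p2 (fun i => y (p2 i))
  have hinj : Function.Injective (Sum.elim q c) := by
    rintro ((a | a) | (a | a)) ((b | b) | (b | b)) hab <;>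
      simp only [Sum.elim_inl, Sum.elim_inr, q, c] at hab
    · rw [hi1 hab]
    · exact absurd hab (hneL _ _ (l1 a) (l1 b))
    · exact absurd hab (hne12 _ _)
    · exact absurd hab (hneL _ _ (l1 a) (l2 b))
    · exact absurd hab.symm (hneL _ _ (l1 b) (l1 a))
    · rw [hi1 (y.injective hab)]
    · exact absurd hab.symm (hneL _ _ (l2 b) (l1 a))
    · exact absurd (y.injective hab) (hne12 _ _)
    · exact absurd hab.symm (hne12 _ _)
    · exact absurd hab (hneL _ _ (l2 a) (l1 b))
    · rw [hi2 hab]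
    · exact absurd hab (hneL _ _ (l2 a) (l2 b))
    · exact absurd hab.symm (hneL _ _ (l1 b) (l2 a))
    · exact absurd (y.injective hab).symm (hne12 _ _)
    · exact absurd hab.symm (hneL _ _ (l2 b) (l2 a))
    · rw [hi2 (y.injective hab)]
  obtain ⟨z, hz, hzm⟩ := exists_match' h0 (by simp; omega) q c hinj
  have hz1 : ∀ i, z (p1 i) = p2 i := fun i => hzm (Sum.inl i)
  have hz2 : ∀ i, z (y (p1 i)) = y (p2 i) := fun i => hzm (Sum.inr i)
  set S1 := dbl y P1 with hS1
  set S2 := dbl y P2 with hS2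
  have mS1 : ∀ x, x ∈ S1 ↔ (∃ i, x = p1 i) ∨ ∃ i, x = y (p1 i) := by
    intro x
    rw [hS1, mem_dbl hy]
    constructor
    · rintro (h | h)
      · obtain ⟨i, hi⟩ := hs1 _ h; exact Or.inl ⟨i, hi.symm⟩
      · obtain ⟨i, hi⟩ := hs1 _ h
        exact Or.inr ⟨i, by rw [hi, hyy]⟩
    · rintro (⟨i, rfl⟩ | ⟨i, rfl⟩)
      · exact Or.inl (hp1 i)
      · right; rw [hyy]; exact hp1 i
  have mS2 : ∀ x, x ∈ S2 ↔ (∃ i, x = p2 i) ∨ ∃ i, x = y (p2 i) := by
    intro x
    rw [hS2, mem_dbl hy]
    constructor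
    · rintro (h | h)
      · obtain ⟨i, hi⟩ := hs2 _ h; exact Or.inl ⟨i, hi.symm⟩
      · obtain ⟨i, hi⟩ := hs2 _ h
        exact Or.inr ⟨i, by rw [hi, hyy]⟩
    · rintro (⟨i, rfl⟩ | ⟨i, rfl⟩)
      · exact Or.inl (hp2 i)
      · right; rw [hyy]; exact hp2 i
  have hzS : ∀ x, x ∈ S1 ↔ z x ∈ S2 := by
    intro x
    rw [mS1, mS2]
    constructor
    · rintro (⟨i, rfl⟩ | ⟨i, rfl⟩)
      · exact Or.inl ⟨i, hz1 i⟩
      · exact Or.inr ⟨i, hz2 i⟩
    · rintro (⟨i, hi⟩ | ⟨i, hi⟩)
      · rw [← hz1 i] at hi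
        exact Or.inl ⟨i, z.injective hi⟩
      · rw [← hz2 i] at hi
        exact Or.inr ⟨i, z.injective hi⟩
  have hzy : ∀ x ∈ S1, z (y x) = y (z x) := by
    intro x hx
    rcases (mS1 x).1 hx with ⟨i, rfl⟩ | ⟨i, rfl⟩
    · rw [hz1, hz2]
    · rw [hyy, hz1, hz2, hyy]
  have hS12 : ∀ x, x ∈ S1 → x ∉ S2 := by
    intro x h1 h2
    rcases (mS1 x).1 h1 with ⟨i, rfl⟩ | ⟨i, rfl⟩ <;> rcases (mS2 _).1 h2 with ⟨j, hj⟩ | ⟨j, hj⟩
    · exact hne12 _ _ hj
    · exact hneL _ _ (l1 i) (l2 j) hj
    · exact hneL _ _ (l2 j) (l1 i) hj.symm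
    · exact hne12 _ _ (y.injective hj)
  have hSU : ∀ x, x ∉ S1 → x ∉ S2 → y x = x := by
    intro x h1 h2
    by_contra hne
    have h3 : x ∈ y.support := mem_support.2 hne
    rw [support_eq_dbl hy, mem_dbl hy] at h3
    rw [hS1, mem_dbl hy] at h1
    rw [hS2, mem_dbl hy] at h2
    push Not at h1 h2
    rcases h3 with h | h
    · exact h2.1 (mem_sdiff.2 ⟨h, h1.1⟩)
    · exact h2.2 (mem_sdiff.2 ⟨h, h1.2⟩)
  have hinvS2 : ∀ x, x ∈ S2 ↔ y x ∈ S2 := dbl_inv hy P2
  have hinvS1 : ∀ x, x ∈ S1 ↔ y x ∈ S1 := dbl_inv hy P1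
  set w := rst y S2 hinvS2 with hw
  have hww : w * w = 1 := rst_inv hy
  have hwi : w⁻¹ = w := inv_eq_of_mul_eq_one_left hww
  have hmain : y = z⁻¹ * (w * z * w⁻¹) := by
    rw [hwi]
    ext x
    congr 1
    simp only [mul_apply]
    by_cases h2 : x ∈ S2
    · have e1 : w x = y x := rst_mem h2
      rw [e1]
      have h3 : y x ∉ S1 := fun h => hS12 _ h ((hinvS2 x).1 h2)
      have h4 : z (y x) ∉ S2 := fun h => h3 ((hzS _).2 h)
      rw [show w (z (y x)) = z (y x) from rst_notMem h4, inv_self_apply]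
    · have e1 : w x = x := rst_notMem h2
      rw [e1]
      by_cases h1 : x ∈ S1
      · have h3 : z x ∈ S2 := (hzS x).1 h1
        rw [show w (z x) = y (z x) from rst_mem h3, ← hzy x h1, inv_self_apply]
      · have h3 : z x ∉ S2 := fun h => h1 ((hzS x).2 h)
        rw [show w (z x) = z x from rst_notMem h3, inv_self_apply, hSU x h1 h2]
  refine ⟨[z⁻¹, w * z * w⁻¹], by simp, ?_, by simpa using hmain.symm⟩
  intro u hu
  simp only [List.mem_cons, List.not_mem_nil, or_false] at hu
  rcases hu with rfl | rfl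
  · exact hz.inv
  · exact hz.conj w

lemma low_rst {y : Perm (Fin n)} {S : Finset (Fin n)}
    (hS : ∀ x, x ∈ S ↔ y x ∈ S) : low (rst y S hS) = (low y).filter (fun x => x ∈ S) := by
  ext x
  rw [mem_low, mem_filter, mem_low]
  by_cases hx : x ∈ S
  · rw [rst_mem hx]; simp [hx]
  · rw [rst_notMem hx]; simp [hx]

/-- an involution with an even number `2 m` of transpositions -/
lemma even_inv {s r : ℕ} (hr0 : 1 ≤ r) {z0 : Perm (Fin n)} (h0 : IsS s z0) (hr : 4 * r ≤ s) :
    ∀ (m : ℕ) (y : Perm (Fin n)), y * y = 1 → (low y).card = 2 * m →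
      PS s (2 * (m / r + 1)) y := by
  intro m
  induction m using Nat.strong_induction_on with
  | _ m ih =>
    intro y hy hc
    by_cases hm : m ≤ r
    · exact (block h0 (by omega) y hy hc).mono (by have := Nat.zero_le (m / r); omega)
    · push Not at hm
      obtain ⟨P, hP, hcP⟩ := exists_subset_card_eq (s := low y) (n := 2 * r) (by omega)
      set S := dbl y P with hS
      have hinv : ∀ x, x ∈ S ↔ y x ∈ S := dbl_inv hy P
      have hinvc : ∀ x, x ∈ Sᶜ ↔ y x ∈ Sᶜ := by
        intro x; rw [mem_compl, mem_compl, hinv]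
      have hlow1 : low (rst y S hinv) = P := by
        rw [low_rst]
        ext x
        rw [mem_filter, hS, mem_dbl hy]
        constructor
        · rintro ⟨h1, h2 | h2⟩
          · exact h2
          · exact absurd (mem_low.1 h1) (by
              have h3 := mem_low.1 (hP h2)
              have hyy : y (y x) = x := by rw [← mul_apply, hy]; rfl
              rw [hyy] at h3
              exact not_lt.2 h3.le)
        · intro h; exact ⟨hP h, Or.inl h⟩
      have hlow2 : low (rst y Sᶜ hinvc) = low y \ P := by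
        rw [low_rst]
        have h1 : low y \ P = (low y).filter (fun x => x ∉ P) := by
          ext x; simp [mem_sdiff]
        rw [h1]
        apply filter_congr
        intro x hx
        rw [mem_compl, not_iff_not]
        constructor
        · intro h
          have : x ∈ low (rst y S hinv) := by rw [low_rst, mem_filter]; exact ⟨hx, h⟩
          rwa [hlow1] at this
        · intro h; rw [hS, mem_dbl hy]; exact Or.inl h
      have hprod : y = rst y S hinv * rst y Sᶜ hinvc := by
        ext x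
        congr 1
        rw [mul_apply]
        by_cases hx : x ∈ S
        · rw [rst_notMem (S := Sᶜ) (by simpa using hx), rst_mem hx]
        · rw [rst_mem (S := Sᶜ) (by simpa using hx),
            rst_notMem (S := S) (fun h => hx ((hinv x).2 h))]
      have h1 : PS s 2 (rst y S hinv) := block h0 hr _ (rst_inv hy) (by rw [hlow1, hcP])
      have h2 : PS s (2 * ((m - r) / r + 1)) (rst y Sᶜ hinvc) :=
        ih (m - r) (by omega) _ (rst_inv hy) (by
          rw [hlow2, card_sdiff_of_subset hP, hcP, hc]; omega)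
      have h3 := h1.mul h2
      rw [← hprod] at h3
      refine h3.mono ?_
      have h4 : m / r = (m - r) / r + 1 := Nat.div_eq_sub_div (by omega) (by omega)
      rw [h4]; ring_nf; omega

lemma sign_inv' {y : Perm (Fin n)} (hy : y * y = 1) : sign y = (-1) ^ (low y).card := by
  have : Fact (Nat.Prime 2) := ⟨Nat.prime_two⟩
  have h1 := cycleType_of_pow_prime_eq_one (σ := y) (p := 2) (by rw [pow_two, hy])
  have h2 : y.cycleType.sum = 2 * (low y).card := by rw [sum_cycleType, card_support_inv hy]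
  have h3 : Multiset.card y.cycleType = (low y).card := by
    have : y.cycleType.sum = Multiset.card y.cycleType * 2 := by
      conv_lhs => rw [h1]
      simp
    omega
  rw [sign_of_cycleType, h2, h3, pow_add, pow_mul]
  simp

/-- the transposition in `y` at the lower end `p`, and the remaining involution -/
lemma split_one {y : Perm (Fin n)} (hy : y * y = 1) {p : Fin n} (hp : p ∈ low y) :
    (y * swap p (y p)) * (y * swap p (y p)) = 1 ∧ (swap p (y p) * y) = y * swap p (y p) ∧
      (low (y * swap p (y p))).card + 1 = (low y).card := by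
  have hyy : ∀ x, y (y x) = x := fun x => by rw [← mul_apply, hy]; rfl
  have hlt := mem_low.1 hp
  have hcomm : swap p (y p) * y = y * swap p (y p) := by
    have := mul_swap_eq_swap_mul y p (y p)
    rw [this, hyy, swap_comm]
  have hval : ∀ x, (y * swap p (y p)) x = if x = p ∨ x = y p then x else y x := by
    intro x
    rw [mul_apply]
    by_cases h1 : x = p
    · subst h1; simp [hyy]
    · by_cases h2 : x = y p
      · subst h2; simp
      · rw [swap_apply_of_ne_of_ne h1 h2]; simp [h1, h2]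
  refine ⟨?_, hcomm, ?_⟩
  · rw [mul_assoc, ← mul_assoc (swap p (y p)), hcomm, mul_assoc, swap_mul_self, mul_one, hy]
  · have : low y = insert p (low (y * swap p (y p))) := by
      ext x
      rw [mem_insert, mem_low, mem_low, hval]
      by_cases h1 : x = p
      · simp [h1, hlt]
      · by_cases h2 : x = y p
        · subst h2
          simp only [or_true, if_true, lt_irrefl, or_false]
          rw [hyy]
          constructor
          · intro h; exact absurd h (not_lt.2 hlt.le)
          · intro h; exact absurd h h1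
        · simp [h1, h2]
    rw [this, card_insert_of_notMem]
    rw [mem_low, hval]; simp

/-- a product of two disjoint transpositions is a block -/
lemma two_swaps {s : ℕ} {z0 : Perm (Fin n)} (h0 : IsS s z0) (hs : 4 ≤ s) {a b c d : Fin n}
    (hab : a ≠ b) (hcd : c ≠ d) (hac : a ≠ c) (had : a ≠ d) (hbc : b ≠ c) (hbd : b ≠ d) :
    PS s 2 (swap a b * swap c d) := by
  have hdis : Disjoint (swap a b) (swap c d) := by
    rw [disjoint_iff_disjoint_support, support_swap hab, support_swap hcd]
    simp [hac.symm, had.symm, hbc.symm, hbd.symm]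
  have hc : swap a b * swap c d = swap c d * swap a b := hdis.commute
  have hy : (swap a b * swap c d) * (swap a b * swap c d) = 1 := by
    calc (swap a b * swap c d) * (swap a b * swap c d)
        = (swap a b * swap c d) * (swap c d * swap a b) := by rw [← hc]
      _ = swap a b * (swap c d * swap c d) * swap a b := by simp only [mul_assoc]
      _ = 1 := by rw [swap_mul_self, mul_one, swap_mul_self]
  refine block (r := 1) h0 (by omega) _ hy ?_
  have h1 := card_support_inv hy
  rw [hdis.card_support_mul, card_support_swap hab, card_support_swap hcd] at h1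
  omega

/-- every even permutation is a product of few `s`-cycles -/
theorem even_factor {s : ℕ} (hs : 4 ≤ s) {z0 : Perm (Fin n)} (h0 : IsS s z0) (hn : 6 ≤ n)
    (σ : Perm (Fin n)) (hσ : sign σ = 1) : PS s (4 * (n / (s / 4)) + 8) σ := by
  obtain ⟨a, b, ha, hb, rfl⟩ := exists_involutions σ
  have hr0 : 1 ≤ s / 4 := by omega
  have hr : 4 * (s / 4) ≤ s := by omega
  have hcard : ∀ y : Perm (Fin n), (low y).card ≤ n := fun y => by
    simpa using card_le_univ (low y)
  have hle : ∀ m, 2 * m ≤ n → m / (s / 4) ≤ n / (s / 4) := fun m hm =>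
    Nat.div_le_div_right (by omega)
  rw [Perm.sign_mul, sign_inv' ha, sign_inv' hb] at hσ
  have hpar : Even ((low a).card + (low b).card) := by
    rw [← pow_add] at hσ
    by_contra h
    rw [Nat.not_even_iff_odd] at h
    rw [h.neg_one_pow] at hσ
    exact absurd hσ (by decide)
  rcases Nat.even_or_odd (low a).card with hev | hodd
  · have hevb : Even (low b).card := (Nat.even_add.1 hpar).1 hev
    obtain ⟨ma, hma⟩ := hev
    obtain ⟨mb, hmb⟩ := hevb
    have h1 := even_inv hr0 h0 hr ma a ha (by omega)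
    have h2 := even_inv hr0 h0 hr mb b hb (by omega)
    refine (h1.mul h2).mono ?_
    have := hle ma (by have := hcard a; omega)
    have := hle mb (by have := hcard b; omega)
    omega
  · have hoddb : Odd (low b).card := by
      rw [← Nat.not_even_iff_odd] at hodd ⊢
      intro h; exact hodd ((Nat.even_add.1 hpar).2 h)
    obtain ⟨p, hp⟩ : (low a).Nonempty := by
      rw [← card_pos]; exact hodd.pos
    obtain ⟨q, hq⟩ : (low b).Nonempty := by
      rw [← card_pos]; exact hoddb.pos
    obtain ⟨ha1, ha2, ha3⟩ := split_one ha hp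
    obtain ⟨hb1, hb2, hb3⟩ := split_one hb hq
    set a' := a * swap p (a p) with ha'
    set b' := b * swap q (b q) with hb'
    obtain ⟨ma, hma⟩ := hodd
    obtain ⟨mb, hmb⟩ := hoddb
    have h1 := even_inv hr0 h0 hr ma a' ha1 (by omega)
    have h2 := even_inv hr0 h0 hr mb b' hb1 (by omega)
    have hpa : p ≠ a p := (mem_low.1 hp).ne
    have hqb : q ≠ b q := (mem_low.1 hq).ne
    obtain ⟨u, hu⟩ : ∃ u : Fin n, u ∉ ({p, a p, q, b q} : Finset (Fin n)) := by
      by_contra hcon
      push Not at hcon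
      have h1 : (univ : Finset (Fin n)) ⊆ {p, a p, q, b q} := fun x _ => hcon x
      have h2 := card_le_card h1
      have h3 : ({p, a p, q, b q} : Finset (Fin n)).card ≤ 4 := card_le_four
      rw [card_univ, Fintype.card_fin] at h2
      omega
    obtain ⟨v, hv⟩ : ∃ v : Fin n, v ∉ (insert u {p, a p, q, b q} : Finset (Fin n)) := by
      by_contra hcon
      push Not at hcon
      have h1 : (univ : Finset (Fin n)) ⊆ insert u {p, a p, q, b q} := fun x _ => hcon x
      have h2 := card_le_card h1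
      have h3 : ({p, a p, q, b q} : Finset (Fin n)).card ≤ 4 := card_le_four
      have h4 := card_insert_le u ({p, a p, q, b q} : Finset (Fin n))
      rw [card_univ, Fintype.card_fin] at h2
      omega
    simp only [mem_insert, mem_singleton, not_or] at hu hv
    have h3 : PS s 2 (swap p (a p) * swap u v) :=
      two_swaps h0 hs hpa (Ne.symm hv.1) (Ne.symm hu.1) (Ne.symm hv.2.1) (Ne.symm hu.2.1)
        (Ne.symm hv.2.2.1)
    have h4 : PS s 2 (swap u v * swap q (b q)) :=
      two_swaps h0 hs (Ne.symm hv.1) hqb hu.2.2.1 hu.2.2.2 hv.2.2.2.1 hv.2.2.2.2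
    have h5 := ((h1.mul h3).mul h4).mul h2
    have e1 : a' * (swap p (a p) * swap u v) * (swap u v * swap q (b q)) * b' = a * b := by
      have e2 : a' * swap p (a p) = a := by rw [ha', mul_assoc, swap_mul_self, mul_one]
      have e3 : swap q (b q) * b' = b := by
        rw [← hb2, ← mul_assoc, swap_mul_self, one_mul]
      calc a' * (swap p (a p) * swap u v) * (swap u v * swap q (b q)) * b'
          = (a' * swap p (a p)) * (swap u v * swap u v) * (swap q (b q) * b') := by
            simp only [mul_assoc]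
        _ = a * b := by rw [e2, e3, swap_mul_self, mul_one]
    rw [e1] at h5
    refine h5.mono ?_
    have := hle ma (by have := hcard a; omega)
    have := hle mb (by have := hcard b; omega)
    omega

end Ordered

end Pool.Agent.L0h8.ND
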