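import Pool.Agent.L0h8.ND.Main

/-!
A spectral gap from a bound for the diameter of a Cayley graph.
-/

set_option autoImplicit false

namespace Pool.Agent.L0h8.ND
open Finset

noncomputable section

section Path
variable {G : Type*} [Group G] [Fintype G] {k : ℕ}

/-- the energy of `f` along right multiplication by `h` -/
def en (f : G → ℝ) (h : G) : ℝ := ∑ g, (f (g * h) - f g) ^ 2

lemma en_inv (f : G → ℝ) (h : G) : en f h⁻¹ = en f h := by
  unfold en
  rw [← Equiv.sum_comp (Equiv.mulRight h)]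
  refine Finset.sum_congr rfl fun g _ => ?_
  simp only [Equiv.coe_mulRight]
  rw [mul_inv_cancel_right]
  ring

lemma en_nonneg (f : G → ℝ) (h : G) : 0 ≤ en f h := Finset.sum_nonneg fun _ _ => sq_nonneg _

/-- the energy along a path -/
lemma en_list (f : G → ℝ) (E : ℝ) (hE : 0 ≤ E) (w : List G) (hw : ∀ y ∈ w, en f y ≤ E) :
    en f w.prod ≤ (w.length : ℝ) ^ 2 * E := by
  -- with square roots: the seminorm is subadditive
  have tri : ∀ a b : G, Real.sqrt (en f (a * b)) ≤ Real.sqrt (en f a) + Real.sqrt (en f b) := by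
    intro a b
    have h1 : Real.sqrt (en f (a * b)) =
        ‖(WithLp.toLp 2 (fun g => f (g * (a * b)) - f g) : EuclideanSpace ℝ G)‖ := by
      rw [EuclideanSpace.norm_eq]
      congr 1
      refine Finset.sum_congr rfl fun g _ => ?_
      simp
    have h2 : Real.sqrt (en f a) =
        ‖(WithLp.toLp 2 (fun g => f (g * a) - f g) : EuclideanSpace ℝ G)‖ := by
      rw [EuclideanSpace.norm_eq]
      congr 1
      refine Finset.sum_congr rfl fun g _ => ?_
      simp
    have h3 : Real.sqrt (en f b) =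
        ‖(WithLp.toLp 2 (fun g => f (g * a * b) - f (g * a)) : EuclideanSpace ℝ G)‖ := by
      rw [EuclideanSpace.norm_eq]
      congr 1
      unfold en
      rw [← Equiv.sum_comp (Equiv.mulRight a)]
      refine Finset.sum_congr rfl fun g _ => ?_
      simp
    rw [h1, h2, h3]
    have h4 : (WithLp.toLp 2 (fun g => f (g * (a * b)) - f g) : EuclideanSpace ℝ G) =
        WithLp.toLp 2 (fun g => f (g * a) - f g) +
          WithLp.toLp 2 (fun g => f (g * a * b) - f (g * a)) := by
      ext g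
      simp [mul_assoc]
    rw [h4]
    exact norm_add_le _ _
  have key : Real.sqrt (en f w.prod) ≤ w.length * Real.sqrt E := by
    induction w with
    | nil =>
      have : en f (1 : G) = 0 := by simp [en]
      simp [this]
    | cons a l ih =>
      rw [List.prod_cons, List.length_cons]
      push_cast
      have h1 := tri a l.prod
      have h2 := ih fun y hy => hw y (by simp [hy])
      have h3 := Real.sqrt_le_sqrt (hw a (by simp))
      linarith
  have h1 : en f w.prod = Real.sqrt (en f w.prod) ^ 2 := (Real.sq_sqrt (en_nonneg f _)).symm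
  rw [h1]
  calc Real.sqrt (en f w.prod) ^ 2 ≤ (w.length * Real.sqrt E) ^ 2 :=
        pow_le_pow_left₀ (Real.sqrt_nonneg _) key 2
    _ = (w.length : ℝ) ^ 2 * E := by rw [mul_pow, Real.sq_sqrt hE]

lemma sum_en (f : G → ℝ) (h0 : ∑ g, f g = 0) :
    ∑ h, en f h = 2 * Fintype.card G * ∑ g, f g ^ 2 := by
  unfold en
  rw [Finset.sum_comm]
  have h1 : ∀ g : G, ∑ h, (f (g * h) - f g) ^ 2 =
      ∑ h, f h ^ 2 + Fintype.card G * f g ^ 2 := by
    intro g
    have e1 : ∑ h, (f (g * h) - f g) ^ 2 = ∑ h, (f h - f g) ^ 2 :=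
      Equiv.sum_comp (Equiv.mulLeft g) fun h => (f h - f g) ^ 2
    rw [e1]
    have e2 : ∀ h, (f h - f g) ^ 2 = f h ^ 2 - 2 * f g * f h + f g ^ 2 := fun h => by ring
    simp_rw [e2]
    rw [Finset.sum_add_distrib, Finset.sum_sub_distrib, ← Finset.mul_sum, h0, Finset.sum_const,
      Finset.card_univ, nsmul_eq_mul]
    ring
  simp_rw [h1]
  rw [Finset.sum_add_distrib, Finset.sum_const, Finset.card_univ, nsmul_eq_mul, ← Finset.mul_sum]
  ring

end Path

lemma expanding_of_diam {n k : ℕ} (hk : 1 ≤ k) {D ε : ℝ}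
    (hε : ε * (k * D ^ 2) ≤ 1) (x : Fin k → alternatingGroup (Fin n))
    (h : ∃ T : ℕ, (T : ℝ) ≤ D ∧ ∀ w : alternatingGroup (Fin n), w ∈ ball x T) :
    Subgroup.closure (Set.range x) = ⊤ ∧
    ∀ f : alternatingGroup (Fin n) → ℝ, ∑ g, f g = 0 →
      ∑ g, f g * ((∑ i, (f (g * x i) + f (g * (x i)⁻¹))) / (2 * k)) ≤
        (1 - ε) * ∑ g, f g ^ 2 := by
  obtain ⟨T, hT, hw⟩ := h
  have hkp : (0 : ℝ) < k := by exact_mod_cast hk
  refine ⟨?_, fun f h0 => ?_⟩
  · rw [eq_top_iff]
    intro g _
    obtain ⟨w, h1, h2, rfl⟩ := hw g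
    refine Subgroup.list_prod_mem _ fun y hy => ?_
    obtain ⟨i, hi | hi⟩ := h2 y hy
    · rw [hi]; exact Subgroup.subset_closure ⟨i, rfl⟩
    · rw [hi]; exact Subgroup.inv_mem _ (Subgroup.subset_closure ⟨i, rfl⟩)
  · set E : ℝ := ∑ i, en f (x i) with hE
    have hE0 : 0 ≤ E := Finset.sum_nonneg fun _ _ => en_nonneg f _
    have hEi : ∀ i, en f (x i) ≤ E := fun i =>
      Finset.single_le_sum (f := fun i => en f (x i)) (fun _ _ => en_nonneg f _)
        (Finset.mem_univ i)
    have h1 : ∀ g, en f g ≤ D ^ 2 * E := by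
      intro g
      obtain ⟨w, h1, h2, rfl⟩ := hw g
      have h3 := en_list f E hE0 w fun y hy => by
        obtain ⟨i, hi | hi⟩ := h2 y hy
        · rw [hi]; exact hEi i
        · rw [hi, en_inv]; exact hEi i
      refine h3.trans ?_
      have h4 : (w.length : ℝ) ≤ D := le_trans (by exact_mod_cast h1) hT
      gcongr
    have h2 := sum_en f h0
    have hG : (0 : ℝ) < Fintype.card (alternatingGroup (Fin n)) := by
      exact_mod_cast Fintype.card_pos
    have h3 : 2 * (Fintype.card (alternatingGroup (Fin n)) : ℝ) * ∑ g, f g ^ 2 ≤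
        Fintype.card (alternatingGroup (Fin n)) * (D ^ 2 * E) := by
      rw [← h2]
      calc ∑ g, en f g ≤ ∑ _g : alternatingGroup (Fin n), D ^ 2 * E :=
            Finset.sum_le_sum fun g _ => h1 g
        _ = _ := by rw [Finset.sum_const, Finset.card_univ, nsmul_eq_mul]
    have h4 : 2 * ∑ g, f g ^ 2 ≤ D ^ 2 * E := by
      have : (Fintype.card (alternatingGroup (Fin n)) : ℝ) * (2 * ∑ g, f g ^ 2) ≤
          Fintype.card (alternatingGroup (Fin n)) * (D ^ 2 * E) := by linarith
      exact le_of_mul_le_mul_left this hG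
    -- the energy in terms of the walk
    have h5 : ∑ g, f g * ((∑ i, (f (g * x i) + f (g * (x i)⁻¹))) / (2 * k)) = ∑ g, f g ^ 2 - E / (2 * k) := by
      have e1 : ∀ i, ∑ g, f g * f (g * x i) = ∑ g, f g ^ 2 - en f (x i) / 2 := by
        intro i
        unfold en
        have e2 : ∑ g, f (g * x i) ^ 2 = ∑ g, f g ^ 2 :=
          Equiv.sum_comp (Equiv.mulRight (x i)) fun g => f g ^ 2
        have e3 : ∀ g, (f (g * x i) - f g) ^ 2 =
            f (g * x i) ^ 2 - 2 * (f g * f (g * x i)) + f g ^ 2 := fun g => by ring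
        simp_rw [e3]
        rw [Finset.sum_add_distrib, Finset.sum_sub_distrib, ← Finset.mul_sum, e2]
        ring
      have e2 : ∀ i, ∑ g, f g * f (g * (x i)⁻¹) = ∑ g, f g * f (g * x i) := by
        intro i
        rw [← Equiv.sum_comp (Equiv.mulRight (x i))]
        refine Finset.sum_congr rfl fun g _ => ?_
        simp only [Equiv.coe_mulRight]
        rw [mul_inv_cancel_right, mul_comm]
      have e3 : ∑ g, f g * ((∑ i, (f (g * x i) + f (g * (x i)⁻¹))) / (2 * k)) =
          (∑ i, (∑ g, f g * f (g * x i) + ∑ g, f g * f (g * (x i)⁻¹))) / (2 * k) := by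
        simp_rw [← Finset.sum_add_distrib, ← mul_add, mul_div_assoc']
        rw [← Finset.sum_div, Finset.sum_comm]
        simp_rw [Finset.mul_sum]
      rw [e3]
      simp_rw [e2, e1]
      have e4 : ∑ i, (∑ g, f g ^ 2 - en f (x i) / 2 + (∑ g, f g ^ 2 - en f (x i) / 2)) =
          2 * k * ∑ g, f g ^ 2 - E := by
        have : ∀ i, (∑ g, f g ^ 2 - en f (x i) / 2 + (∑ g, f g ^ 2 - en f (x i) / 2)) =
            2 * ∑ g, f g ^ 2 - en f (x i) := fun i => by ring
        simp_rw [this]
        rw [Finset.sum_sub_distrib, Finset.sum_const, Finset.card_univ, Fintype.card_fin,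
          nsmul_eq_mul]
        ring
      rw [e4]
      field_simp
    rw [h5]
    have hF : 0 ≤ ∑ g, f g ^ 2 := Finset.sum_nonneg fun _ _ => sq_nonneg _
    have h6 : ε * ∑ g, f g ^ 2 ≤ E / (2 * k) := by
      by_cases hε0 : ε ≤ 0
      · exact le_trans (mul_nonpos_of_nonpos_of_nonneg hε0 hF) (by positivity)
      · push Not at hε0
        rw [le_div_iff₀ (by positivity)]
        calc ε * (∑ g, f g ^ 2) * (2 * k) = ε * k * (2 * ∑ g, f g ^ 2) := by ring
          _ ≤ ε * k * (D ^ 2 * E) := by gcongr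
          _ = ε * (k * D ^ 2) * E := by ring
          _ ≤ 1 * E := by gcongr
          _ = E := one_mul E
    linarith

end

end Pool.Agent.L0h8.ND
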