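import Pool.Agent.H20R2.RC.WORDS
import Pool.Agent.H375R2.RC.DECOMP
import Pool.Agent.H14R2.RC.S.HSL
import Pool.Agent.R236.ExcA
import Pool.Agent.L0h8.ND.Mix

/-!
Decay of class functions under the lazy walk, from bounds for the normalized traces.
-/

set_option autoImplicit false
set_option linter.unusedSectionVars false

namespace Pool.Agent.L0h8.ND
open RC14 Finset
open scoped InnerProductSpace

noncomputable section

section Gen
variable {G : Type*} [Group G] [Fintype G]
variable {V : Type*} [NormedAddCommGroup V] [InnerProductSpace ℂ V] [FiniteDimensional ℂ V]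

/-- restriction of the lazy walk to an invariant subspace -/
lemma TL_res (ρ : G →* (V ≃ₗᵢ[ℂ] V)) (W : Submodule ℂ V) (hW : Inv ρ W) {k : ℕ} (y : Fin k → G)
    (w : W) : ((TL (res ρ W hW) y w : W) : V) = TL ρ y w := by
  rw [WORDS.TL_apply, WORDS.TL_apply, Submodule.coe_smul, Submodule.coe_add, Submodule.coe_smul,
    Submodule.coe_sum]
  congr 3

lemma TL_res_pow (ρ : G →* (V ≃ₗᵢ[ℂ] V)) (W : Submodule ℂ V) (hW : Inv ρ W) {k : ℕ}
    (y : Fin k → G) (L : ℕ) (w : W) :
    (((TL (res ρ W hW) y ^ L) w : W) : V) = (TL ρ y ^ L) w := by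
  induction L generalizing w with
  | zero => simp
  | succ L ih =>
    rw [pow_succ, pow_succ, Module.End.mul_apply, Module.End.mul_apply, ih, TL_res]

lemma cj_symm (ρ : G →* (V ≃ₗᵢ[ℂ] V)) (T : Module.End ℂ V) (hT : T.IsSymmetric) (z : G) :
    (cj ρ T z).IsSymmetric := by
  intro v w
  have h1 : ∀ (g : G) (v w : V), ⟪ρ g v, w⟫_ℂ = ⟪v, ρ g⁻¹ w⟫_ℂ := by
    intro g v w
    have h2 : w = ρ g (ρ g⁻¹ w) := by
      rw [map_inv]
      exact ((ρ g).apply_symm_apply w).symm
    conv_lhs => rw [h2]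
    exact (ρ g).inner_map_map _ _
  simp only [cj, Module.End.mul_apply, op_apply]
  rw [h1, hT, h1, inv_inv]

lemma avg_comm (ρ : G →* (V ≃ₗᵢ[ℂ] V)) (T : Module.End ℂ V) (g : G) :
    op ρ g * (∑ z : G, cj ρ T z) = (∑ z : G, cj ρ T z) * op ρ g := by
  rw [Finset.mul_sum, Finset.sum_mul]
  have h1 : ∀ z, op ρ g * cj ρ T z = cj ρ T (g * z) * op ρ g := by
    intro z
    unfold cj
    have h2 : op ρ (g * z)⁻¹ * op ρ g = op ρ z⁻¹ := by
      rw [← op_mul]; congr 1; group
    rw [mul_assoc (op ρ (g * z) * T), h2, op_mul]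
    simp only [mul_assoc]
  rw [Finset.sum_congr rfl fun z _ => h1 z]
  exact Fintype.sum_equiv (Equiv.mulLeft g) _ _ fun z => rfl

lemma pow_symm {T : Module.End ℂ V} (hT : T.IsSymmetric) (L : ℕ) : (T ^ L).IsSymmetric := by
  induction L with
  | zero => intro v w; simp
  | succ L ih =>
    intro v w
    rw [pow_succ', Module.End.mul_apply, hT, ih]
    rw [← Module.End.mul_apply, ← pow_succ, pow_succ']

/-- the average of the conjugates of an operator is bounded by the normalized traces on the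
irreducible subspaces -/
theorem avg_le (ρ : G →* (V ≃ₗᵢ[ℂ] V)) {k : ℕ} (y : Fin k → G) (L : ℕ) (κ : ℝ)
    (hκ : ∀ (W : Submodule ℂ V) (hW : Irr ρ W),
      rtr (TL (res ρ W hW.2.1) y ^ L) ≤ κ * Module.finrank ℂ W) (v : V) :
    (⟪(∑ z : G, cj ρ (TL ρ y ^ L) z) v, v⟫_ℂ).re ≤ Fintype.card G * κ * ‖v‖ ^ 2 := by
  set T := TL ρ y ^ L with hTdef
  set B : Module.End ℂ V := ∑ z : G, cj ρ T z with hB
  have hTs : T.IsSymmetric := pow_symm (TL_symm ρ y) L
  have hBs : B.IsSymmetric := by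
    intro v w
    rw [hB, LinearMap.sum_apply, LinearMap.sum_apply, sum_inner, inner_sum]
    exact Finset.sum_congr rfl fun z _ => cj_symm ρ T hTs z v w
  have hcomm := avg_comm ρ T
  rw [← hB] at hcomm
  set n := Module.finrank ℂ V with hn
  set b := hBs.eigenvectorBasis hn.symm with hb
  set μ := hBs.eigenvalues hn.symm with hμ
  have hBb : ∀ i, B (b i) = (μ i : ℂ) • b i := fun i => hBs.apply_eigenvectorBasis hn.symm i
  have hG : (0 : ℝ) < Fintype.card G := by exact_mod_cast Fintype.card_pos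
  have hμle : ∀ i, μ i ≤ Fintype.card G * κ := by
    intro i
    have hinv : Inv ρ (B.eigenspace (μ i : ℂ)) := by
      intro g v hv
      rw [Module.End.mem_eigenspace_iff] at hv ⊢
      have h1 := congrArg (fun T : Module.End ℂ V => T v) (hcomm g)
      simp only [Module.End.mul_apply, op_apply] at h1
      rw [← h1, hv, map_smul]
    have hne : B.eigenspace (μ i : ℂ) ≠ ⊥ := by
      intro h
      have h1 : b i ∈ B.eigenspace (μ i : ℂ) := by
        rw [Module.End.mem_eigenspace_iff]; exact hBb i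
      rw [h, Submodule.mem_bot] at h1
      have h2 := b.norm_eq_one i
      rw [h1, norm_zero] at h2
      norm_num at h2
    obtain ⟨W, hW, hWle⟩ := DECOMP.exists_irr ρ _ hinv hne
    have hBW : ∑ z : G, cj (res ρ W hW.2.1) (TL (res ρ W hW.2.1) y ^ L) z =
        (μ i : ℂ) • (1 : Module.End ℂ W) := by
      ext w
      have h1 : ((∑ z : G, cj (res ρ W hW.2.1) (TL (res ρ W hW.2.1) y ^ L) z) w : V) =
          B (w : V) := by
        rw [hB, LinearMap.sum_apply, LinearMap.sum_apply, Submodule.coe_sum]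
        refine Finset.sum_congr rfl fun z _ => ?_
        simp only [cj, Module.End.mul_apply, op_apply, res_apply]
        rw [TL_res_pow, res_apply]
      rw [h1]
      have h2 : (w : V) ∈ B.eigenspace (μ i : ℂ) := hWle w.2
      rw [Module.End.mem_eigenspace_iff] at h2
      rw [h2]
      simp
    have htr := congrArg (LinearMap.trace ℂ W) hBW
    rw [map_sum, map_smul, LinearMap.trace_one, smul_eq_mul] at htr
    have h1 : ∀ z : G, LinearMap.trace ℂ W (cj (res ρ W hW.2.1) (TL (res ρ W hW.2.1) y ^ L) z) =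
        LinearMap.trace ℂ W (TL (res ρ W hW.2.1) y ^ L) := by
      intro z
      unfold cj
      rw [LinearMap.trace_mul_comm, ← mul_assoc, ← op_mul, inv_mul_cancel, op_one, one_mul]
    rw [Finset.sum_congr rfl fun z _ => h1 z, Finset.sum_const, Finset.card_univ,
      nsmul_eq_mul] at htr
    have hre := congrArg Complex.re htr
    have e1 : ((Fintype.card G : ℂ) *
        LinearMap.trace ℂ W (TL (res ρ W hW.2.1) y ^ L)).re =
        Fintype.card G * rtr (TL (res ρ W hW.2.1) y ^ L) := by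
      rw [show (Fintype.card G : ℂ) = ((Fintype.card G : ℝ) : ℂ) by push_cast; rfl,
        Complex.re_ofReal_mul]
      rfl
    have e2 : ((μ i : ℂ) * (Module.finrank ℂ W : ℂ)).re = μ i * Module.finrank ℂ W := by
      rw [Complex.re_ofReal_mul]
      simp
    rw [e1, e2] at hre
    have hd : (0 : ℝ) < Module.finrank ℂ W := by
      have : Module.finrank ℂ W ≠ 0 := fun h => hW.1 (Submodule.finrank_eq_zero.1 h)
      exact_mod_cast Nat.pos_of_ne_zero this
    have h2 := hκ W hW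
    have h3 : μ i * Module.finrank ℂ W ≤ Fintype.card G * κ * Module.finrank ℂ W := by
      rw [← hre, mul_assoc]
      exact mul_le_mul_of_nonneg_left h2 hG.le
    exact le_of_mul_le_mul_right h3 hd
  have hnorm : ∀ w : V, ‖w‖ ^ 2 = ∑ i, ‖⟪b i, w⟫_ℂ‖ ^ 2 := fun w =>
    (b.sum_sq_norm_inner_right w).symm
  have hBre : ∀ v : V, (⟪B v, v⟫_ℂ).re = ∑ i, μ i * ‖⟪b i, v⟫_ℂ‖ ^ 2 := by
    intro v
    rw [← b.sum_inner_mul_inner (B v) v, Complex.re_sum]
    apply Finset.sum_congr rfl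
    intro i _
    rw [hBs v (b i), hBb, inner_smul_right, mul_assoc, ← inner_conj_symm v (b i),
      mul_comm (starRingEnd ℂ _) _,
      Complex.mul_conj, ← Complex.ofReal_mul, Complex.ofReal_re, Complex.normSq_eq_norm_sq]
  rw [hBre, hnorm, Finset.mul_sum]
  exact Finset.sum_le_sum fun i _ => mul_le_mul_of_nonneg_right (hμle i) (by positivity)

/-- the energy is at most `4 k ‖v‖²` -/
lemma En_le (ρ : G →* (V ≃ₗᵢ[ℂ] V)) {k : ℕ} (y : Fin k → G) (v : V) :
    En ρ y v ≤ 4 * k * ‖v‖ ^ 2 := by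
  unfold En
  have h1 : ∀ i, ‖ρ (y i) v - v‖ ^ 2 ≤ 4 * ‖v‖ ^ 2 := by
    intro i
    have h2 : ‖ρ (y i) v - v‖ ≤ 2 * ‖v‖ := by
      refine (norm_sub_le _ _).trans ?_
      rw [(ρ (y i)).norm_map]; linarith
    calc ‖ρ (y i) v - v‖ ^ 2 ≤ (2 * ‖v‖) ^ 2 := pow_le_pow_left₀ (norm_nonneg _) h2 2
      _ = 4 * ‖v‖ ^ 2 := by ring
  calc ∑ i, ‖ρ (y i) v - v‖ ^ 2 ≤ ∑ _i : Fin k, 4 * ‖v‖ ^ 2 := Finset.sum_le_sum fun i _ => h1 i
    _ = 4 * k * ‖v‖ ^ 2 := by
      rw [Finset.sum_const, Finset.card_univ, Fintype.card_fin, nsmul_eq_mul]; ring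

/-- the trace of a power of the lazy walk, if there are few exceptional eigenvalues -/
theorem trace_le (ρ : G →* (V ≃ₗᵢ[ℂ] V)) {k : ℕ} (hk : 1 ≤ k) (y : Fin k → G) (ε η : ℝ)
    (hε : ε ≤ 2)
    (hfew : ∀ U : Submodule ℂ V, (∀ v ∈ U, (1 - ε) * ‖v‖ ^ 2 ≤
      (⟪Pool.Agent.R236.Exc.wop ρ y v, v⟫_ℂ).re) →
        (Module.finrank ℂ U : ℝ) ≤ η * Module.finrank ℂ V) (L : ℕ) :
    rtr (TL ρ y ^ L) ≤ (η + (1 - ε / 2) ^ L) * Module.finrank ℂ V := by
  classical
  set n := Module.finrank ℂ V with hn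
  have hk0 : (0 : ℝ) < k := by exact_mod_cast hk
  have hT := TL_symm ρ y
  set b := hT.eigenvectorBasis hn.symm with hb
  set μ := hT.eigenvalues hn.symm with hμ
  have hTb : ∀ i, TL ρ y (b i) = (μ i : ℂ) • b i := fun i => hT.apply_eigenvectorBasis hn.symm i
  have hpow : ∀ (L : ℕ) (i), (TL ρ y ^ L) (b i) = ((μ i : ℂ) ^ L) • b i := by
    intro L i
    induction L with
    | zero => simp
    | succ L ih =>
      rw [pow_succ', Module.End.mul_apply, ih, map_smul, hTb, smul_smul, pow_succ]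
  have hμv : ∀ i, 1 - μ i = En ρ y (b i) / (4 * k) := by
    intro i
    have h := TL_energy ρ hk y (b i)
    rw [hTb, inner_smul_left, b.inner_eq_one i, b.norm_eq_one i] at h
    simpa using h
  have hμ0 : ∀ i, 0 ≤ μ i := by
    intro i
    have h1 := hμv i
    have h2 := En_le ρ y (b i)
    rw [b.norm_eq_one i] at h2
    have h3 : En ρ y (b i) / (4 * k) ≤ 1 := by
      rw [div_le_one (by positivity)]; linarith
    linarith
  have hμ1 : ∀ i, μ i ≤ 1 := by
    intro i
    have h1 := hμv i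
    have h2 : 0 ≤ En ρ y (b i) := Finset.sum_nonneg fun _ _ => by positivity
    have h3 : 0 ≤ En ρ y (b i) / (4 * k) := by positivity
    linarith
  -- the exceptional eigenvalues
  set S : Finset (Fin n) := univ.filter fun i => 1 - ε / 2 ≤ μ i with hS
  let c : S → V := fun i => b i
  have hli : LinearIndependent ℂ c := b.orthonormal.linearIndependent.comp _ Subtype.val_injective
  set U : Submodule ℂ V := Submodule.span ℂ (Set.range c) with hU
  have hUdim : Module.finrank ℂ U = S.card := by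
    rw [hU, finrank_span_eq_card hli, Fintype.card_coe]
  have hUb : ∀ v ∈ U, ∀ i, i ∉ S → ⟪b i, v⟫_ℂ = 0 := by
    intro v hv i hi
    induction hv using Submodule.span_induction with
    | mem x hx =>
      obtain ⟨j, rfl⟩ := hx
      refine b.inner_eq_zero ?_
      rintro rfl
      exact hi j.2
    | zero => simp
    | add x y _ _ hx hy => rw [inner_add_right, hx, hy, add_zero]
    | smul a x _ hx => rw [inner_smul_right, hx, mul_zero]
  have hnorm : ∀ w : V, ‖w‖ ^ 2 = ∑ i, ‖⟪b i, w⟫_ℂ‖ ^ 2 := fun w =>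
    (b.sum_sq_norm_inner_right w).symm
  have hTre : ∀ v : V, (⟪TL ρ y v, v⟫_ℂ).re = ∑ i, μ i * ‖⟪b i, v⟫_ℂ‖ ^ 2 := by
    intro v
    rw [← b.sum_inner_mul_inner (TL ρ y v) v, Complex.re_sum]
    apply Finset.sum_congr rfl
    intro i _
    rw [hT v (b i), hTb, inner_smul_right, mul_assoc, ← inner_conj_symm v (b i),
      mul_comm (starRingEnd ℂ _) _,
      Complex.mul_conj, ← Complex.ofReal_mul, Complex.ofReal_re, Complex.normSq_eq_norm_sq]
  have hUq : ∀ v ∈ U, (1 - ε) * ‖v‖ ^ 2 ≤ (⟪Pool.Agent.R236.Exc.wop ρ y v, v⟫_ℂ).re := by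
    intro v hv
    have h1 : (1 - ε / 2) * ‖v‖ ^ 2 ≤ (⟪TL ρ y v, v⟫_ℂ).re := by
      rw [hTre, hnorm, Finset.mul_sum]
      refine Finset.sum_le_sum fun i _ => ?_
      by_cases hi : i ∈ S
      · exact mul_le_mul_of_nonneg_right (by simpa [hS] using hi) (by positivity)
      · rw [hUb v hv i hi]; simp
    have h2 := TL_energy ρ hk y v
    have h3 := Pool.Agent.R236.Exc.wop_energy ρ hk y v
    have h4 : En ρ y v / (2 * k) = 2 * (En ρ y v / (4 * k)) := by
      field_simp; ring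
    rw [h4] at h3
    linarith
  have h1 := hfew U hUq
  rw [hUdim] at h1
  have htr : rtr (TL ρ y ^ L) = ∑ i, μ i ^ L := by
    unfold rtr
    rw [LinearMap.trace_eq_sum_inner (TL ρ y ^ L) b, Complex.re_sum]
    refine Finset.sum_congr rfl fun i _ => ?_
    rw [hpow, inner_smul_right, b.inner_eq_one i, mul_one, ← Complex.ofReal_pow,
      Complex.ofReal_re]
  rw [htr]
  have h2 : ∀ i, μ i ^ L ≤ (if i ∈ S then (1 : ℝ) else 0) + (1 - ε / 2) ^ L := by
    intro i
    have hp : (0 : ℝ) ≤ (1 - ε / 2) ^ L := pow_nonneg (by linarith) _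
    split_ifs with hi
    · have : μ i ^ L ≤ 1 := pow_le_one₀ (hμ0 i) (hμ1 i)
      linarith
    · have h3 : μ i ≤ 1 - ε / 2 := by
        by_contra hcon
        push Not at hcon
        exact hi (by simp only [hS, mem_filter, mem_univ, true_and]; exact hcon.le)
      have := pow_le_pow_left₀ (hμ0 i) h3 L
      linarith
  calc ∑ i, μ i ^ L ≤ ∑ i : Fin n, ((if i ∈ S then (1 : ℝ) else 0) + (1 - ε / 2) ^ L) :=
        Finset.sum_le_sum fun i _ => h2 i
    _ = S.card + n * (1 - ε / 2) ^ L := by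
        rw [Finset.sum_add_distrib, Finset.sum_const, Finset.card_univ, Fintype.card_fin,
          nsmul_eq_mul, Finset.sum_ite_mem, Finset.univ_inter, Finset.sum_const, nsmul_eq_mul,
          mul_one]
    _ ≤ η * n + n * (1 - ε / 2) ^ L := by linarith
    _ = (η + (1 - ε / 2) ^ L) * n := by ring

end Gen

end

end Pool.Agent.L0h8.ND
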